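import Pool.Agent.U829.AB.Norm

set_option autoImplicit false

/-! # Periodic stretches of the digits in an algebraic base -/

namespace Pool.Agent.U829.AB

open Polynomial

/-- the partial sums -/
noncomputable def part (ρ : ℝ) (d : ℕ → ℤ) (n : ℕ) : ℝ := ∑ i ∈ Finset.range n, (d i : ℝ) * ρ ^ i

lemma hasSum_tail {ρ x : ℝ} {d : ℕ → ℤ} (hρ : 0 < ρ) (h : HasSum (fun i => (d i : ℝ) * ρ ^ i) x) (n : ℕ) :
    HasSum (fun j => (d (n + j) : ℝ) * ρ ^ j) ((ρ ^ n)⁻¹ * (x - part ρ d n)) := by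
  have h1 : HasSum (fun j => (d (j + n) : ℝ) * ρ ^ (j + n)) (x - part ρ d n) :=
    (hasSum_nat_add_iff' (f := fun i => (d i : ℝ) * ρ ^ i) n).2 h
  have h2 := h1.mul_left (ρ ^ n)⁻¹
  have e : (fun j => (d (n + j) : ℝ) * ρ ^ j) =
      fun j => (ρ ^ n)⁻¹ * ((d (j + n) : ℝ) * ρ ^ (j + n)) := by
    funext j
    have h3 : ρ ^ n ≠ 0 := (pow_pos hρ n).ne'
    rw [pow_add, add_comm j n]
    field_simp
  rw [e]
  exact h2

/-- the error of a periodic stretch -/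
lemma period_error {ρ x : ℝ} {d : ℕ → ℤ} (hρ : 0 < ρ) (hρ1 : ρ < 1) (B : ℕ) (hB : ∀ i, |d i| ≤ B)
    (h : HasSum (fun i => (d i : ℝ) * ρ ^ i) x) (r k N : ℕ)
    (hper : ∀ i, r ≤ i → i + k < N → d (i + k) = d i) :
    |(ρ ^ (r + k))⁻¹ * (x - part ρ d (r + k)) - (ρ ^ r)⁻¹ * (x - part ρ d r)| ≤
      2 * B / (1 - ρ) * ρ ^ (N - (r + k)) := by
  have h1 := (hasSum_tail hρ h (r + k)).sub (hasSum_tail hρ h r)
  obtain ⟨E, hE⟩ : ∃ E : ℝ, E = (ρ ^ (r + k))⁻¹ * (x - part ρ d (r + k)) -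
      (ρ ^ r)⁻¹ * (x - part ρ d r) := ⟨_, rfl⟩
  rw [← hE] at h1 ⊢
  obtain ⟨J, hJ⟩ : ∃ J, J = N - (r + k) := ⟨_, rfl⟩
  rw [← hJ]
  have h2 := (hasSum_nat_add_iff' J).2 h1
  have h3 : ∑ i ∈ Finset.range J, ((d (r + k + i) : ℝ) * ρ ^ i - (d (r + i) : ℝ) * ρ ^ i) = 0 := by
    apply Finset.sum_eq_zero
    intro i hi
    rw [Finset.mem_range] at hi
    have h4 := hper (r + i) (by omega) (by omega)
    have e : r + i + k = r + k + i := by ring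
    rw [e] at h4
    rw [h4]
    ring
  rw [h3, sub_zero] at h2
  have hg : HasSum (fun j : ℕ => 2 * (B : ℝ) * ρ ^ J * ρ ^ j) (2 * B * ρ ^ J * (1 - ρ)⁻¹) :=
    (hasSum_geometric_of_lt_one hρ.le hρ1).mul_left _
  have h5 := h2.norm_le_of_bounded hg (fun j => by
    rw [Real.norm_eq_abs, ← sub_mul, abs_mul, abs_of_pos (pow_pos hρ _), pow_add]
    have h6 : |(d (r + k + (j + J)) : ℝ) - d (r + (j + J))| ≤ 2 * B := by
      have h7 : |(d (r + k + (j + J)) : ℝ)| ≤ B := by exact_mod_cast hB _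
      have h8 : |(d (r + (j + J)) : ℝ)| ≤ B := by exact_mod_cast hB _
      have := abs_sub (d (r + k + (j + J)) : ℝ) (d (r + (j + J)))
      linarith
    have h9 : 0 ≤ ρ ^ j * ρ ^ J := by positivity
    calc |(d (r + k + (j + J)) : ℝ) - d (r + (j + J))| * (ρ ^ j * ρ ^ J)
        ≤ 2 * B * (ρ ^ j * ρ ^ J) := mul_le_mul_of_nonneg_right h6 h9
      _ = _ := by ring)
  rw [Real.norm_eq_abs] at h5
  refine h5.trans (le_of_eq ?_)
  rw [div_eq_mul_inv]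
  ring

lemma abs_le_of_digits {ρ x : ℝ} {d : ℕ → ℤ} (hρ : 0 < ρ) (hρ1 : ρ < 1) (B : ℕ) (hB : ∀ i, |d i| ≤ B)
    (h : HasSum (fun i => (d i : ℝ) * ρ ^ i) x) : |x| ≤ B / (1 - ρ) := by
  have hg : HasSum (fun j : ℕ => (B : ℝ) * ρ ^ j) (B * (1 - ρ)⁻¹) :=
    (hasSum_geometric_of_lt_one hρ.le hρ1).mul_left _
  have h5 := h.norm_le_of_bounded hg (fun j => by
    rw [Real.norm_eq_abs, abs_mul, abs_of_pos (pow_pos hρ _)]
    have h7 : |(d j : ℝ)| ≤ B := by exact_mod_cast hB _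
    gcongr)
  rw [Real.norm_eq_abs] at h5
  rwa [div_eq_mul_inv]

/-- the numerator as a polynomial in `γ = a β` -/
noncomputable def numer (a : ℤ) (d : ℕ → ℤ) (n : ℕ) : ℤ[X] :=
  ∑ i ∈ Finset.range n, C (d i * a ^ i) * X ^ (n - i)

lemma numer_deg (a : ℤ) (d : ℕ → ℤ) (n : ℕ) : (numer a d n).natDegree ≤ n := by
  unfold numer
  refine natDegree_sum_le_of_forall_le _ _ fun i _ => ?_
  exact (natDegree_C_mul_X_pow_le _ _).trans (Nat.sub_le _ _)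

lemma numer_coeff (a : ℤ) (ha : a ≠ 0) (d : ℕ → ℤ) (B : ℕ) (hB : ∀ i, |d i| ≤ B) (n k : ℕ) :
    |(((numer a d n).coeff k : ℤ) : ℝ)| ≤ B * |(a : ℝ)| ^ n := by
  unfold numer
  rw [finsetSum_coeff]
  have ha1 : (1 : ℝ) ≤ |(a : ℝ)| := by
    rw [← Int.cast_abs]
    exact_mod_cast Int.one_le_abs ha
  have hB0 : (0 : ℝ) ≤ B := Nat.cast_nonneg B
  by_cases hk : 1 ≤ k ∧ k ≤ n
  · rw [Finset.sum_eq_single (n - k)]
    · rw [coeff_C_mul, coeff_X_pow, if_pos (by omega), mul_one]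
      push_cast
      rw [abs_mul, abs_pow]
      have h1 : |(d (n - k) : ℝ)| ≤ B := by exact_mod_cast hB _
      have h2 : |(a : ℝ)| ^ (n - k) ≤ |(a : ℝ)| ^ n := pow_le_pow_right₀ ha1 (Nat.sub_le _ _)
      gcongr
    · intro i hi hne
      rw [Finset.mem_range] at hi
      rw [coeff_C_mul, coeff_X_pow, if_neg (by omega), mul_zero]
    · intro h
      rw [Finset.mem_range] at h
      omega
  · rw [Finset.sum_eq_zero]
    · simp only [Int.cast_zero, abs_zero]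
      positivity
    · intro i hi
      rw [Finset.mem_range] at hi
      rw [coeff_C_mul, coeff_X_pow, if_neg (by omega), mul_zero]

lemma numer_val (β : ℝ) (hβ : β ≠ 0) (a : ℤ) (d : ℕ → ℤ) (n : ℕ) :
    aeval ((a : ℝ) * β) (numer a d n) = (a : ℝ) ^ n * ((β⁻¹) ^ n)⁻¹ * part β⁻¹ d n := by
  unfold numer part
  rw [map_sum, Finset.mul_sum]
  refine Finset.sum_congr rfl fun i hi => ?_
  rw [Finset.mem_range] at hi
  rw [map_mul, aeval_C, map_pow, aeval_X, algebraMap_int_eq, eq_intCast]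
  push_cast
  have e : n = (n - i) + i := by omega
  rw [mul_pow]
  have h1 : (a : ℝ) ^ n = (a : ℝ) ^ (n - i) * (a : ℝ) ^ i := by rw [← pow_add, ← e]
  have h2 : (β⁻¹ ^ n)⁻¹ = β ^ (n - i) * β ^ i := by
    rw [inv_pow, inv_inv, ← pow_add, ← e]
  rw [h1, h2, inv_pow]
  have h3 : β ^ i ≠ 0 := pow_ne_zero _ hβ
  field_simp

/-- **Periodic stretches of the digits in an algebraic base.** -/
theorem base_poly (β : ℝ) (hβ : 1 < β) (halg : IsAlgebraic ℤ β) (B t : ℕ) : ∃ (D : ℕ) (K : ℝ), 1 ≤ K ∧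
    ∀ (d : ℕ → ℤ) (x : ℝ), (∀ i, |d i| ≤ B) → HasSum (fun i => (d i : ℝ) * β⁻¹ ^ i) (x * β⁻¹ ^ t) →
      ∀ r k N : ℕ, 1 ≤ k → (∀ i, r ≤ i → i + k < N → d (i + k) = d i) →
      ∃ P : ℤ[X], P ≠ 0 ∧ P.natDegree ≤ D ∧ (∀ j, |((P.coeff j : ℤ) : ℝ)| ≤ K ^ (r + k + 1)) ∧
        |aeval x P| ≤ K ^ (r + k + 1) * β⁻¹ ^ N := by
  obtain ⟨a, ha, hint⟩ := IsAlgebraic.exists_integral_multiple halg
  obtain ⟨γ, hγ⟩ : ∃ γ : ℝ, γ = a * β := ⟨_, rfl⟩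
  have hγint : IsIntegral ℤ γ := by
    rw [hγ, ← zsmul_eq_mul]
    exact hint
  obtain ⟨D, K, hK, h⟩ := norm_poly γ hγint
  have ha1 : (1 : ℝ) ≤ |(a : ℝ)| := by
    rw [← Int.cast_abs]
    exact_mod_cast Int.one_le_abs ha
  obtain ⟨ρ, hρ⟩ : ∃ ρ : ℝ, ρ = β⁻¹ := ⟨_, rfl⟩
  have hβ0 : 0 < β := by linarith
  have hρ0 : 0 < ρ := by rw [hρ]; positivity
  have hρ1 : ρ < 1 := by rw [hρ]; exact inv_lt_one_of_one_lt₀ hβ
  have hβρ : ∀ n : ℕ, β ^ n * ρ ^ n = 1 := fun n => by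
    rw [← mul_pow, hρ, mul_inv_cancel₀ hβ0.ne', one_pow]
  obtain ⟨V, hV⟩ : ∃ V : ℝ, V = 1 + β ^ t * (B / (1 - ρ)) := ⟨_, rfl⟩
  have hρ2 : 0 < 1 - ρ := by linarith
  have hB0 : (0 : ℝ) ≤ B := Nat.cast_nonneg B
  have hBt : (B : ℝ) / (1 - ρ) ≤ β ^ t * (B / (1 - ρ)) := by
    have h1 : 1 ≤ β ^ t := one_le_pow₀ hβ.le
    have h2 : 0 ≤ (B : ℝ) / (1 - ρ) := by positivity
    nlinarith
  have hV1 : 1 ≤ V := by
    rw [hV]
    have : 0 ≤ β ^ t * ((B : ℝ) / (1 - ρ)) := by positivity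
    linarith
  -- the constant
  obtain ⟨U, hU⟩ : ∃ U : ℝ, U = (|(a : ℝ)| * K) ^ t := ⟨_, rfl⟩
  have hU1 : 1 ≤ U := by
    rw [hU]
    exact one_le_pow₀ (by nlinarith)
  obtain ⟨Q, hQ⟩ : ∃ Q : ℝ, Q = 2 * ((B : ℝ) + 1) * |(a : ℝ)| * K * V * U := ⟨_, rfl⟩
  have hQ0 : 1 ≤ 2 * ((B : ℝ) + 1) * |(a : ℝ)| * K * V := by
    have h1 : 1 ≤ 2 * ((B : ℝ) + 1) := by linarith
    have h2 : 1 ≤ 2 * ((B : ℝ) + 1) * |(a : ℝ)| := by nlinarith
    have h3 : 1 ≤ 2 * ((B : ℝ) + 1) * |(a : ℝ)| * K := by nlinarith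
    nlinarith
  have hQ1 : 1 ≤ Q := by
    rw [hQ]
    nlinarith
  obtain ⟨T, hT⟩ : ∃ T : ℝ, T = (|(a : ℝ)| * β) ^ t := ⟨_, rfl⟩
  have haβ : 1 ≤ |(a : ℝ)| * β := by nlinarith
  have hT1 : 1 ≤ T := by
    rw [hT]
    exact one_le_pow₀ haβ
  refine ⟨D, Q ^ D * (T * (|(a : ℝ)| * β * (2 * V))), ?_, ?_⟩
  · have h1 : 1 ≤ Q ^ D := one_le_pow₀ hQ1
    have h3 : 1 ≤ |(a : ℝ)| * β * (2 * V) := by nlinarith
    have h4 : 1 ≤ T * (|(a : ℝ)| * β * (2 * V)) := by nlinarith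
    nlinarith
  intro d x hB hx r k N hk hper
  rw [← hρ] at hx ⊢
  obtain ⟨s, hs⟩ : ∃ s, s = r + k := ⟨_, rfl⟩
  obtain ⟨G, hG⟩ : ∃ G : ℤ[X], G = C (a ^ t) * (X ^ s - C (a ^ k) * X ^ r) := ⟨_, rfl⟩
  obtain ⟨H, hH⟩ : ∃ H : ℤ[X], H = (numer a d s - C (a ^ k) * numer a d r) * X ^ t := ⟨_, rfl⟩
  obtain ⟨L, hL⟩ : ∃ L : ℝ, L = |(a : ℝ)| ^ t * (2 * ((B : ℝ) + 1) * |(a : ℝ)| ^ s) := ⟨_, rfl⟩
  have has : 1 ≤ |(a : ℝ)| ^ s := one_le_pow₀ ha1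
  have hat : 1 ≤ |(a : ℝ)| ^ t := one_le_pow₀ ha1
  have hak : |(a : ℝ)| ^ k ≤ |(a : ℝ)| ^ s := pow_le_pow_right₀ ha1 (by omega)
  have hL0 : 1 ≤ 2 * ((B : ℝ) + 1) * |(a : ℝ)| ^ s := by nlinarith
  have hL1 : 1 ≤ L := by rw [hL]; nlinarith
  have hGdeg : G.natDegree ≤ s + t := by
    rw [hG]
    refine (natDegree_C_mul_le _ _).trans ((natDegree_sub_le _ _).trans (max_le ?_ ?_))
    · rw [natDegree_X_pow]
      omega
    · exact (natDegree_C_mul_X_pow_le _ _).trans (by omega)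
  have hHdeg : H.natDegree ≤ s + t := by
    rw [hH]
    refine natDegree_mul_le.trans (Nat.add_le_add ((natDegree_sub_le _ _).trans
      (max_le (numer_deg a d s) ?_)) (natDegree_X_pow_le t))
    exact (natDegree_C_mul_le _ _).trans ((numer_deg a d r).trans (by omega))
  have hGc : ∀ j, |((G.coeff j : ℤ) : ℝ)| ≤ L := by
    intro j
    rw [hG, coeff_C_mul, coeff_sub, coeff_C_mul, coeff_X_pow, coeff_X_pow]
    push_cast
    have h1 : |(if j = s then (1 : ℝ) else 0) - (a : ℝ) ^ k * (if j = r then (1 : ℝ) else 0)| ≤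
        1 + |(a : ℝ)| ^ k := by
      refine (abs_sub _ _).trans ?_
      rw [abs_mul, abs_pow]
      have h2 : |if j = s then (1 : ℝ) else 0| ≤ 1 := by split <;> simp
      have h3 : |if j = r then (1 : ℝ) else 0| ≤ 1 := by split <;> simp
      have h4 : |(a : ℝ)| ^ k * |if j = r then (1 : ℝ) else 0| ≤ |(a : ℝ)| ^ k * 1 := by gcongr
      linarith
    have h5 : 1 + |(a : ℝ)| ^ k ≤ 2 * ((B : ℝ) + 1) * |(a : ℝ)| ^ s := by nlinarith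
    rw [abs_mul, abs_pow, hL]
    refine mul_le_mul_of_nonneg_left ?_ (by positivity)
    refine le_trans (le_of_eq ?_) (h1.trans h5)
    congr 1
  have hHc : ∀ j, |((H.coeff j : ℤ) : ℝ)| ≤ L := by
    intro j
    have hLL : 2 * ((B : ℝ) + 1) * |(a : ℝ)| ^ s ≤ L := by rw [hL]; nlinarith
    rw [hH, coeff_mul_X_pow']
    split
    · rename_i htj
      rw [coeff_sub, coeff_C_mul]
      push_cast
      have h1 := numer_coeff a ha d B hB s (j - t)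
      have h2 := numer_coeff a ha d B hB r (j - t)
      have h3 := abs_sub ((numer a d s).coeff (j - t) : ℝ) ((a : ℝ) ^ k * ((numer a d r).coeff (j - t) : ℝ))
      rw [abs_mul, abs_pow] at h3
      have h4 : |(a : ℝ)| ^ k * |((numer a d r).coeff (j - t) : ℝ)| ≤
          |(a : ℝ)| ^ k * (B * |(a : ℝ)| ^ r) := by
        gcongr
      have h5 : |(a : ℝ)| ^ k * (B * |(a : ℝ)| ^ r) = B * |(a : ℝ)| ^ s := by
        rw [hs, pow_add]; ring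
      refine le_trans ?_ hLL
      nlinarith
    · simp only [Int.cast_zero, abs_zero]
      linarith
  have hC : ∀ z : ℤ, aeval γ (C z) = (z : ℝ) := fun z => by
    rw [aeval_C, algebraMap_int_eq, eq_intCast]
  have hGval : aeval γ G = (a : ℝ) ^ t * ((a : ℝ) ^ s * ((ρ ^ s)⁻¹ - (ρ ^ r)⁻¹)) := by
    rw [hG, map_mul, hC, map_sub, map_mul, hC, map_pow, map_pow, aeval_X, hγ]
    push_cast
    rw [hρ, inv_pow, inv_inv, inv_pow, inv_inv, mul_pow, mul_pow, mul_sub]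
    have e : (a : ℝ) ^ s = (a : ℝ) ^ k * (a : ℝ) ^ r := by rw [hs, pow_add]; ring
    rw [e]
    ring
  have hHval : aeval γ H = (a : ℝ) ^ s * ((ρ ^ s)⁻¹ * part ρ d s - (ρ ^ r)⁻¹ * part ρ d r) *
      ((a : ℝ) ^ t * β ^ t) := by
    rw [hH, map_mul, map_sub, map_mul, hC, map_pow, aeval_X, hγ]
    rw [numer_val β hβ0.ne', numer_val β hβ0.ne', ← hρ, mul_pow]
    push_cast
    have e : (a : ℝ) ^ s = (a : ℝ) ^ k * (a : ℝ) ^ r := by rw [hs, pow_add]; ring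
    rw [e]
    ring
  have haR : (a : ℝ) ≠ 0 := by exact_mod_cast ha
  have hGne : aeval γ G ≠ 0 := by
    rw [hGval]
    refine mul_ne_zero (pow_ne_zero _ haR) (mul_ne_zero (pow_ne_zero _ haR) ?_)
    have h1 : ρ ^ s < ρ ^ r := by
      apply pow_lt_pow_right_of_lt_one₀ hρ0 hρ1
      omega
    have h2 : (ρ ^ r)⁻¹ < (ρ ^ s)⁻¹ := inv_strictAnti₀ (pow_pos hρ0 _) h1
    linarith
  obtain ⟨P, hP, hPD, hPc, hPv⟩ := h G H (s + t) L hL1 hGdeg hHdeg hGc hHc hGne x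
  have hval : aeval γ G * x - aeval γ H =
      (a : ℝ) ^ t * β ^ t * ((a : ℝ) ^ s * ((ρ ^ s)⁻¹ * (x * ρ ^ t - part ρ d s) -
        (ρ ^ r)⁻¹ * (x * ρ ^ t - part ρ d r))) := by
    rw [hGval, hHval]
    have e := hβρ t
    linear_combination (-(a : ℝ) ^ t * (a : ℝ) ^ s * ((ρ ^ s)⁻¹ - (ρ ^ r)⁻¹) * x) * e
  have herr := period_error hρ0 hρ1 B hB hx r k N hper
  rw [← hs] at herr
  have hxV : 1 + |x| ≤ V := by
    rw [hV]
    have h1 := abs_le_of_digits hρ0 hρ1 B hB hx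
    rw [abs_mul, abs_of_pos (pow_pos hρ0 t)] at h1
    have h2 : |x| = β ^ t * (|x| * ρ ^ t) := by
      have := hβρ t
      calc |x| = |x| * (β ^ t * ρ ^ t) := by rw [this, mul_one]
        _ = _ := by ring
    have h3 : β ^ t * (|x| * ρ ^ t) ≤ β ^ t * (B / (1 - ρ)) := by gcongr
    linarith
  have hU0 : 0 < U := by linarith
  have hQs : (2 * ((B : ℝ) + 1) * |(a : ℝ)| * K * V) ^ (s + 1) * U ≤ Q ^ (s + 1) := by
    rw [hQ, mul_pow _ U]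
    have h1 : U ≤ U ^ (s + 1) := le_self_pow₀ hU1 (by omega)
    gcongr
  have hLK0 : L * K ^ (s + t + 1) = (2 * ((B : ℝ) + 1) * |(a : ℝ)| ^ s * K ^ (s + 1)) * U := by
    rw [hL, hU, mul_pow, show s + t + 1 = (s + 1) + t by ring, pow_add K (s + 1) t]
    ring
  have e1 : (2 * ((B : ℝ) + 1) * |(a : ℝ)| * K * V) ^ (s + 1) =
      V ^ (s + 1) * ((2 * ((B : ℝ) + 1)) ^ (s + 1) * |(a : ℝ)| ^ (s + 1) * K ^ (s + 1)) := by
    rw [mul_pow, mul_pow, mul_pow]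
    ring
  have g1 : 2 * ((B : ℝ) + 1) ≤ (2 * ((B : ℝ) + 1)) ^ (s + 1) := by
    have : (1 : ℝ) ≤ 2 * ((B : ℝ) + 1) := by linarith
    exact le_self_pow₀ this (by omega)
  have g2 : |(a : ℝ)| ^ s ≤ |(a : ℝ)| ^ (s + 1) := pow_le_pow_right₀ ha1 (by omega)
  have g3 : 1 + |x| ≤ V ^ (s + 1) := hxV.trans (le_self_pow₀ hV1 (by omega))
  have g4 : 2 * ((B : ℝ) + 1) * |(a : ℝ)| ^ s * K ^ (s + 1) ≤
      (2 * ((B : ℝ) + 1)) ^ (s + 1) * |(a : ℝ)| ^ (s + 1) * K ^ (s + 1) := by gcongr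
  have hx0 := abs_nonneg x
  have hVLK : (1 + |x|) * (L * K ^ (s + t + 1)) ≤ Q ^ (s + 1) := by
    refine le_trans ?_ hQs
    rw [hLK0, e1]
    calc (1 + |x|) * (2 * ((B : ℝ) + 1) * |(a : ℝ)| ^ s * K ^ (s + 1) * U)
        = (1 + |x|) * (2 * ((B : ℝ) + 1) * |(a : ℝ)| ^ s * K ^ (s + 1)) * U := by ring
      _ ≤ _ := by gcongr
  have hLK : L * K ^ (s + t + 1) ≤ Q ^ (s + 1) := by
    refine le_trans ?_ hVLK
    have : 0 ≤ L * K ^ (s + t + 1) := by positivity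
    nlinarith
  have hVq : 1 ≤ 2 * V := by linarith
  have hZ1 : 1 ≤ T * (|(a : ℝ)| * β * (2 * V)) := by
    have h3 : 1 ≤ |(a : ℝ)| * β * (2 * V) := by nlinarith
    nlinarith
  have hZ : 1 ≤ (T * (|(a : ℝ)| * β * (2 * V))) ^ (s + 1) := one_le_pow₀ hZ1
  have hsplit : (Q ^ D * (T * (|(a : ℝ)| * β * (2 * V)))) ^ (s + 1) =
      (Q ^ (s + 1)) ^ D * (T * (|(a : ℝ)| * β * (2 * V))) ^ (s + 1) := by
    rw [mul_pow (Q ^ D), ← pow_mul, ← pow_mul, mul_comm D]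
  refine ⟨P, hP, hPD, ?_, ?_⟩
  · intro j
    refine (hPc j).trans ?_
    rw [← hs, hsplit]
    have h1 : (L * K ^ (s + t + 1)) ^ D ≤ (Q ^ (s + 1)) ^ D := pow_le_pow_left₀ (by positivity) hLK D
    have h2 : 0 ≤ (Q ^ (s + 1)) ^ D := by positivity
    nlinarith
  · refine hPv.trans ?_
    obtain ⟨W, hW⟩ : ∃ W : ℝ, W = (ρ ^ s)⁻¹ * (x * ρ ^ t - part ρ d s) -
        (ρ ^ r)⁻¹ * (x * ρ ^ t - part ρ d r) := ⟨_, rfl⟩
    rw [← hW] at herr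
    rw [hval, ← hW, ← hs, hsplit]
    have habs : |(a : ℝ) ^ t * β ^ t * ((a : ℝ) ^ s * W)| = T * (|(a : ℝ)| ^ s * |W|) := by
      rw [abs_mul, abs_mul, abs_mul, abs_pow, abs_pow, abs_pow, abs_of_pos hβ0, hT, mul_pow]
    rw [habs]
    have h1 : ((1 + |x|) * (L * K ^ (s + t + 1))) ^ D ≤ (Q ^ (s + 1)) ^ D :=
      pow_le_pow_left₀ (by positivity) hVLK D
    have h2 : ρ ^ (N - s) ≤ β ^ s * ρ ^ N := by
      have e := hβρ s
      rcases Nat.le_total s N with h3 | h3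
      · have e2 : ρ ^ N = ρ ^ s * ρ ^ (N - s) := by rw [← pow_add]; congr 1; omega
        rw [e2, ← mul_assoc, e, one_mul]
      · have e3 : N - s = 0 := by omega
        rw [e3, pow_zero, ← e]
        have h4 : ρ ^ s ≤ ρ ^ N := pow_le_pow_of_le_one hρ0.le hρ1.le h3
        gcongr
    have h3 : 2 * (B : ℝ) / (1 - ρ) ≤ 2 * V := by
      rw [hV, mul_div_assoc]
      linarith
    have h4 : T * (|(a : ℝ)| ^ s * |W|) ≤
        (T * (|(a : ℝ)| * β * (2 * V))) ^ (s + 1) * ρ ^ N := by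
      have h6 : β ^ s ≤ β ^ (s + 1) := pow_le_pow_right₀ hβ.le (by omega)
      have h7 : 2 * V ≤ (2 * V) ^ (s + 1) := le_self_pow₀ hVq (by omega)
      have h8 : 0 ≤ 2 * (B : ℝ) / (1 - ρ) := by positivity
      have h11 : T ≤ T ^ (s + 1) := le_self_pow₀ hT1 (by omega)
      calc T * (|(a : ℝ)| ^ s * |W|) ≤ T * (|(a : ℝ)| ^ s * (2 * B / (1 - ρ) * ρ ^ (N - s))) := by
            gcongr
        _ ≤ T ^ (s + 1) * (|(a : ℝ)| ^ (s + 1) * ((2 * V) ^ (s + 1) * (β ^ (s + 1) * ρ ^ N))) := by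
            have h9 : 2 * (B : ℝ) / (1 - ρ) ≤ (2 * V) ^ (s + 1) := h3.trans h7
            have h10 : ρ ^ (N - s) ≤ β ^ (s + 1) * ρ ^ N := h2.trans (by gcongr)
            gcongr
        _ = _ := by rw [mul_pow, mul_pow, mul_pow]; ring
    calc ((1 + |x|) * (L * K ^ (s + t + 1))) ^ D * (T * (|(a : ℝ)| ^ s * |W|))
        ≤ (Q ^ (s + 1)) ^ D * ((T * (|(a : ℝ)| * β * (2 * V))) ^ (s + 1) * ρ ^ N) := by gcongr
      _ = _ := by ring

end Pool.Agent.U829.AB
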