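import Pool.Agent.U829.CF.Def

set_option autoImplicit false

/-! # Codes of real numbers: digits in algebraic bases, continued fractions -/

namespace Pool.Agent.U829.AB

open Pool.Agent.U829.CF (quot den)

/-- `a` is a sequence of digits of `x` in one of the bases `β ∈ F`: `x = β^t ∑ a_i β^(-i)`, `|a_i| ≤ B`. (No
condition that selects one of these representations is imposed.) The height `h n` of the first `n` digits is
`log β^n`. -/
def DigitCode (F : Finset ℝ) (B t : ℕ) (x : ℝ) (a : ℕ → ℤ) (h : ℕ → ℝ) : Prop :=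
  ∃ β ∈ F, (∀ i, |a i| ≤ B) ∧ HasSum (fun i => (a i : ℝ) * β⁻¹ ^ i) (x * β⁻¹ ^ t) ∧
    ∀ n, h n = n * Real.log β

/-- `x` is irrational and `a` is the sequence of its partial quotients. The height of the first `n` partial
quotients is the logarithm of the denominator of the convergent. -/
def QuotCode (x : ℝ) (a : ℕ → ℤ) (h : ℕ → ℝ) : Prop :=
  Irrational x ∧ (∀ n, a n = quot x n) ∧ ∀ n, h n = Real.log (den x n)

/-- A piece `a_m, ..., a_{n-1}` of a sequence, of one of the following two kinds. (1) A single term. (2) A piece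
`U V V ... V V'`, where `U` may be empty and `V'` is a beginning of `V`, and where the height grows by at most `R`
from the beginning of the piece to the end of the first `V`. -/
def Piece (a : ℕ → ℤ) (h : ℕ → ℝ) (R : ℝ) (m n : ℕ) : Prop :=
  m < n ∧ (n = m + 1 ∨ ∃ r k : ℕ, m ≤ r ∧ 1 ≤ k ∧ r + k ≤ n ∧ h (r + k) ≤ h m + R ∧
    ∀ i, r ≤ i → i + k < n → a (i + k) = a i)

/-- The terms `a_m, ..., a_{n-1}` can be cut into `p` such pieces. -/
def Cut (a : ℕ → ℤ) (h : ℕ → ℝ) (R : ℝ) (m p n : ℕ) : Prop :=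
  ∃ c : ℕ → ℕ, c 0 = m ∧ c p = n ∧ ∀ j < p, Piece a h R (c j) (c (j + 1))

/-- The states of an automaton with the transition function `δ`, which starts in the state `s` and reads
`a_1, a_2, ...`: it is in the state `state δ s a n` when it has read `a_1, ..., a_n`. -/
def state {S : ℕ} (δ : Fin S → ℤ → Fin S) (s : Fin S) (a : ℕ → ℤ) : ℕ → Fin S
  | 0 => s
  | n + 1 => δ (state δ s a n) (a (n + 1))

/-- the wrong predictions: the `n` with `m ≤ n < N` such that `a_n` is not the number `g` which the automaton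
announces after it has read `a_1, ..., a_{n-1}` -/
def wrong {S : ℕ} (δ : Fin S → ℤ → Fin S) (g : Fin S → ℤ) (s : Fin S) (a : ℕ → ℤ) (m N : ℕ) : Set ℕ :=
  {n | m ≤ n ∧ n < N ∧ a n ≠ g (state δ s a (n - 1))}

/-- The two codes cannot both be cut into few pieces, at no scale, and two automata with `S` states which announce
numbers `≤ B` cannot both predict them with few errors, at no scale and up to no place. -/
def Apart (A : ℝ) (a : ℕ → ℤ) (h : ℕ → ℝ) (a' : ℕ → ℤ) (h' : ℕ → ℝ) : Prop :=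
  (∀ (R : ℝ) (m p n m' p' n' : ℕ), 1 ≤ R → 1 ≤ m → 1 ≤ m' → Cut a h R m p n → Cut a' h' R m' p' n' →
    min (h n) (h' n') ≤ (R + max (h m) (h' m')) * A ^ (p + p')) ∧
  ∀ (S B : ℕ) (δ δ' : Fin S → ℤ → Fin S) (g g' : Fin S → ℤ) (s s' : Fin S),
    (∀ t, g t ≤ B) → (∀ t, g' t ≤ B) →
    (∀ m n m' n' : ℕ, 1 ≤ m → m ≤ n → 1 ≤ m' → m' ≤ n' →
      min (h n) (h' n') ≤ (S * Real.log (B + 3) + max (h m) (h' m')) *
        A ^ ((wrong δ g s a m n).ncard + (wrong δ' g' s' a' m' n').ncard + 1)) ∧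
    ∀ n : ℕ, (n : ℝ) ≤ S * Real.log (B + 3) *
      A ^ ((wrong δ g s a 1 n).ncard + (wrong δ' g' s' a' 1 n).ncard + 1)

/-- The same for one code. -/
def Alone (A : ℝ) (a : ℕ → ℤ) (h : ℕ → ℝ) : Prop :=
  (∀ (R : ℝ) (m p n : ℕ), 1 ≤ R → 1 ≤ m → Cut a h R m p n → h n ≤ (R + h m) * A ^ (p + 1)) ∧
  ∀ (S B : ℕ) (δ : Fin S → ℤ → Fin S) (g : Fin S → ℤ) (s : Fin S), (∀ t, g t ≤ B) →
    (∀ m n : ℕ, 1 ≤ m → m ≤ n → h n ≤ (S * Real.log (B + 3) + h m) *
        A ^ ((wrong δ g s a m n).ncard + 1)) ∧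
    ∀ n : ℕ, (n : ℝ) ≤ S * Real.log (B + 3) * A ^ ((wrong δ g s a 1 n).ncard + 1)

end Pool.Agent.U829.AB
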