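import Pool.Agent.U829.AB.Base
import Pool.Agent.U829.AB.Def
import Pool.Agent.U829.CF.Fin

set_option autoImplicit false

/-! # The polynomials of the pieces of a code -/

namespace Pool.Agent.U829.AB

open Polynomial
open Pool.Agent.U829.CF (quot den gen_irr den_pos log_den_nonneg)

/-- The pieces of the codes in the class `C` give polynomials of degree at most `D` with small values at `x`. -/
def Pol (x : ℝ) (D : ℕ) (κ : ℝ) (C : (ℕ → ℤ) → (ℕ → ℝ) → Prop) : Prop :=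
  ∀ a h, C a h → (∀ n, 0 ≤ h n) ∧ ∀ (R : ℝ) (m n : ℕ), 1 ≤ R → 1 ≤ m → Piece a h R m n →
    ∃ P : ℤ[X], P ≠ 0 ∧ P.natDegree ≤ D ∧ (∀ j, |((P.coeff j : ℤ) : ℝ)| ≤ Real.exp (κ * (R + h m))) ∧
      |aeval x P| ≤ Real.exp (κ * (R + h m) - h n)

lemma Pol.mono {x : ℝ} {D D' : ℕ} {κ κ' : ℝ} {C : (ℕ → ℤ) → (ℕ → ℝ) → Prop} (h : Pol x D κ C)
    (hD : D ≤ D') (hκ : κ ≤ κ') : Pol x D' κ' C := by
  intro a hh hC
  obtain ⟨h0, h1⟩ := h a hh hC
  refine ⟨h0, fun R m n hR hm hp => ?_⟩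
  obtain ⟨P, g1, g2, g3, g4⟩ := h1 R m n hR hm hp
  have e : κ * (R + hh m) ≤ κ' * (R + hh m) := by
    have := h0 m
    apply mul_le_mul_of_nonneg_right hκ
    linarith
  exact ⟨P, g1, g2.trans hD, fun j => (g3 j).trans (Real.exp_le_exp.2 e),
    g4.trans (Real.exp_le_exp.2 (by linarith))⟩

lemma Pol.sub {x : ℝ} {D : ℕ} {κ : ℝ} {C C' : (ℕ → ℤ) → (ℕ → ℝ) → Prop} (h : Pol x D κ C)
    (hC : ∀ a hh, C' a hh → C a hh) : Pol x D κ C' := fun a hh h' => h a hh (hC a hh h')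

/-- digits in one base -/
def OneBase (β : ℝ) (B t : ℕ) (x : ℝ) (a : ℕ → ℤ) (h : ℕ → ℝ) : Prop :=
  (∀ i, |a i| ≤ B) ∧ HasSum (fun i => (a i : ℝ) * β⁻¹ ^ i) (x * β⁻¹ ^ t) ∧ ∀ n, h n = n * Real.log β

lemma pol_base (x β : ℝ) (hβ : 1 < β) (halg : IsAlgebraic ℤ β) (B t : ℕ) :
    ∃ (D : ℕ) (κ : ℝ), Pol x D κ (OneBase β B t x) := by
  obtain ⟨D, K, hK, h⟩ := base_poly β hβ halg B t
  obtain ⟨l, hl⟩ : ∃ l, l = Real.log β := ⟨_, rfl⟩
  have hl0 : 0 < l := by rw [hl]; exact Real.log_pos hβ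
  have hK0 : 0 ≤ Real.log K := Real.log_nonneg hK
  refine ⟨D, (1 / l + 2) * Real.log K, ?_⟩
  rintro a hh ⟨hB, hsum, hheight⟩
  rw [← hl] at hheight
  have hh0 : ∀ n, 0 ≤ hh n := fun n => by rw [hheight]; positivity
  refine ⟨hh0, fun R m n hR hm hp => ?_⟩
  obtain ⟨hmn, hor⟩ := hp
  obtain ⟨r, k, hk, hrk, hper⟩ : ∃ r k : ℕ, 1 ≤ k ∧ ((r + k + 1 : ℕ) : ℝ) ≤ (R + hh m) * (1 / l + 2) ∧
      ∀ i, r ≤ i → i + k < n → a (i + k) = a i := by
    have hm0 := hh0 m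
    have hml : (m : ℝ) = hh m * (1 / l) := by rw [hheight m]; field_simp
    have hl1 : 0 < 1 / l := by positivity
    rcases hor with hn | ⟨r, k, h1, h2, h3, h4, h5⟩
    · refine ⟨m, 1, le_rfl, ?_, fun i h1 h2 => by omega⟩
      push_cast
      nlinarith
    · refine ⟨r, k, h2, ?_, h5⟩
      have h6 : ((r + k : ℕ) : ℝ) * l ≤ hh m + R := by rw [← hheight]; exact h4
      have h7 : ((r + k : ℕ) : ℝ) ≤ (hh m + R) * (1 / l) := by
        rw [mul_one_div, le_div_iff₀ hl0]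
        exact h6
      push_cast at h7 ⊢
      nlinarith
  obtain ⟨P, g1, g2, g3, g4⟩ := h a x hB hsum r k n hk hper
  have hKpow : K ^ (r + k + 1) ≤ Real.exp ((1 / l + 2) * Real.log K * (R + hh m)) := by
    have e : K ^ (r + k + 1) = Real.exp (((r + k + 1 : ℕ) : ℝ) * Real.log K) := by
      rw [← Real.log_pow, Real.exp_log (by positivity)]
    rw [e]
    apply Real.exp_le_exp.2
    have := mul_le_mul_of_nonneg_right hrk hK0
    linarith
  refine ⟨P, g1, g2, fun j => (g3 j).trans hKpow, g4.trans ?_⟩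
  have e2 : β⁻¹ ^ n = Real.exp (-hh n) := by
    rw [hheight, hl, Real.exp_neg, ← Real.log_pow, Real.exp_log (by positivity), inv_pow]
  rw [e2, sub_eq_add_neg, Real.exp_add]
  gcongr

lemma pol_quot (x : ℝ) : ∃ (κ : ℝ), Pol x 2 κ (QuotCode x) := by
  have hx := abs_nonneg x
  obtain ⟨q, hq⟩ : ∃ q : ℝ, q = 4 * (|x| + 1) ^ 2 := ⟨_, rfl⟩
  have hq1 : 1 ≤ q := by rw [hq]; nlinarith
  refine ⟨2 + Real.log q, ?_⟩
  have hlq := Real.log_nonneg hq1
  rintro a hh ⟨hirr, ha, hheight⟩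
  have hh0 : ∀ n, 0 ≤ hh n := fun n => by rw [hheight]; exact log_den_nonneg x n
  refine ⟨hh0, fun R m n hR hm hp => ?_⟩
  obtain ⟨hmn, hor⟩ := hp
  have hpos : ∀ n, 1 ≤ n → (0 : ℝ) < den x n := fun n hn => by
    exact_mod_cast den_pos (gen_irr hirr n) hn
  have hpiece : Pool.Agent.U829.CF.Piece x R m n := by
    refine ⟨hmn, fun i h1 h2 => gen_irr hirr n i (by omega) h2, ?_⟩
    rcases hor with h1 | ⟨r, k, h1, h2, h3, h4, h5⟩
    · exact Or.inl h1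
    · refine Or.inr ⟨r, k, h1, h2, h3, ?_, fun i h6 h7 => by rw [← ha, ← ha]; exact h5 i h6 h7⟩
      rw [hheight, hheight] at h4
      have h6 := Real.exp_le_exp.2 h4
      rw [Real.exp_add, Real.exp_log (hpos _ (by omega)), Real.exp_log (hpos _ hm)] at h6
      linarith
  obtain ⟨P, g1, g2, g3, g4⟩ := Pool.Agent.U829.CF.piece_poly' (by linarith) hm hpiece
  rw [← hheight] at g3 g4
  have hm0 := hh0 m
  have e1 : 4 * (|x| + 1) ^ 2 * Real.exp (2 * (R + hh m)) ≤ Real.exp ((2 + Real.log q) * (R + hh m)) := by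
    rw [← hq, ← Real.exp_log (show 0 < q by linarith), ← Real.exp_add, Real.log_exp]
    apply Real.exp_le_exp.2
    nlinarith
  refine ⟨P, g1, g2, fun j => (g3 j).trans e1, g4.trans ?_⟩
  have e2 : (2 : ℝ) ≤ Real.exp ((2 + Real.log q) * (R + hh m)) := by
    have h1 := Real.add_one_le_exp ((2 + Real.log q) * (R + hh m))
    nlinarith
  rw [sub_eq_add_neg, Real.exp_add]
  gcongr

/-- finitely many bases -/
lemma pol_bases (x : ℝ) (F : Finset ℝ) (hF : ∀ β ∈ F, 1 < β ∧ IsAlgebraic ℤ β) (B t : ℕ) :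
    ∃ (D : ℕ) (κ : ℝ), Pol x D κ (DigitCode F B t x) := by
  classical
  have hch : ∀ β : ℝ, ∃ (D : ℕ) (κ : ℝ), β ∈ F → Pol x D κ (OneBase β B t x) := by
    intro β
    by_cases hβ : β ∈ F
    · obtain ⟨D, κ, h⟩ := pol_base x β (hF β hβ).1 (hF β hβ).2 B t
      exact ⟨D, κ, fun _ => h⟩
    · exact ⟨0, 0, fun h => absurd h hβ⟩
  choose D κ h using hch
  refine ⟨∑ β ∈ F, D β, ∑ β ∈ F, |κ β|, ?_⟩
  rintro a hh ⟨β, hβ, h1⟩
  have hD : D β ≤ ∑ β ∈ F, D β := Finset.single_le_sum (fun _ _ => Nat.zero_le _) hβ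
  have hκ : κ β ≤ ∑ β ∈ F, |κ β| :=
    (le_abs_self _).trans (Finset.single_le_sum (f := fun β => |κ β|) (fun _ _ => abs_nonneg _) hβ)
  exact (h β hβ).mono hD hκ a hh h1

/-- the growth of the heights along bounded terms -/
def Slow (c : ℝ) (C : (ℕ → ℤ) → (ℕ → ℝ) → Prop) : Prop :=
  ∀ a h, C a h → (∀ B S m j : ℕ, 1 ≤ m → j ≤ S → (∀ i, m ≤ i → i < m + j → a i ≤ B) →
    h (m + j) ≤ h m + S * Real.log (B + 3) * c) ∧ (∀ n : ℕ, 1 ≤ n → (n : ℝ) ≤ 2 + c * h n) ∧ h 1 ≤ c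

lemma Slow.mono {c c' : ℝ} {C : (ℕ → ℤ) → (ℕ → ℝ) → Prop} (h : Slow c C) (hcc : c ≤ c')
    (h0 : ∀ a hh, C a hh → ∀ n, 0 ≤ hh n) : Slow c' C := by
  intro a hh hC
  obtain ⟨h1, h2, h3⟩ := h a hh hC
  refine ⟨fun B S m j hm hj hb => (h1 B S m j hm hj hb).trans ?_, fun n hn => (h2 n hn).trans ?_,
    h3.trans hcc⟩
  · have h4 := Pool.Agent.U829.CF.log3 B
    have h5 : 0 ≤ (S : ℝ) * Real.log (B + 3) := by positivity
    have := mul_le_mul_of_nonneg_left hcc h5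
    linarith
  · have := mul_le_mul_of_nonneg_right hcc (h0 a hh hC n)
    linarith

lemma slow_base (x : ℝ) (F : Finset ℝ) (hF : ∀ β ∈ F, 1 < β ∧ IsAlgebraic ℤ β) (B t : ℕ) :
    ∃ c : ℝ, Slow c (DigitCode F B t x) := by
  refine ⟨∑ β ∈ F, (|Real.log β| + |1 / Real.log β|), ?_⟩
  rintro a h ⟨β, hβ, -, -, hh⟩
  have hl : 0 < Real.log β := Real.log_pos (hF β hβ).1
  obtain ⟨c, hc⟩ : ∃ c : ℝ, c = ∑ β ∈ F, (|Real.log β| + |1 / Real.log β|) := ⟨_, rfl⟩
  have h1 : Real.log β + 1 / Real.log β ≤ c := by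
    rw [hc]
    refine le_trans (add_le_add (le_abs_self _) (le_abs_self _)) ?_
    exact Finset.single_le_sum (f := fun β => |Real.log β| + |1 / Real.log β|)
      (fun _ _ => by positivity) hβ
  rw [← hc]
  have hl1 : 0 < 1 / Real.log β := by positivity
  have hc0 : Real.log β ≤ c := by linarith
  have hc1 : 1 / Real.log β ≤ c := by linarith
  have hcc : 0 ≤ c := by linarith
  refine ⟨fun B' S m j hm hj _ => ?_, fun n _ => ?_, ?_⟩
  · have h3 := Pool.Agent.U829.CF.log3 B'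
    have hjS : (j : ℝ) ≤ S := by exact_mod_cast hj
    rw [hh, hh]
    push_cast
    have h4 : (j : ℝ) * Real.log β ≤ S * Real.log β := by gcongr
    have h5 : (S : ℝ) * Real.log β ≤ S * c := by gcongr
    have h6 : (S : ℝ) * c ≤ S * Real.log (B' + 3) * c := by
      have : 0 ≤ (S : ℝ) * c := by positivity
      nlinarith
    linarith
  · rw [hh]
    have h3 : (n : ℝ) = 1 / Real.log β * (n * Real.log β) := by field_simp
    have h4 : 1 / Real.log β * (n * Real.log β) ≤ c * (n * Real.log β) := by gcongr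
    linarith
  · rw [hh]
    push_cast
    linarith

lemma slow_quot (x : ℝ) : Slow 3 (QuotCode x) := by
  rintro a h ⟨hirr, ha, hh⟩
  have hpos : ∀ n, 1 ≤ n → (0 : ℝ) < den x n := fun n hn => by
    exact_mod_cast den_pos (gen_irr hirr n) hn
  refine ⟨fun B S m j hm hj hb => ?_, fun n hn => ?_, ?_⟩
  · have h1 := Pool.Agent.U829.CF.den_growth hm B j (gen_irr hirr _)
      (fun i h1 h2 => by rw [← ha]; exact hb i h1 h2)
    have h2 := Real.log_le_log (hpos (m + j) (by omega)) h1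
    rw [Real.log_mul (by positivity) (hpos m hm).ne', Real.log_pow, ← hh, ← hh] at h2
    have hjS : (j : ℝ) ≤ S := by exact_mod_cast hj
    have h3 : Real.log ((B : ℝ) + 1) ≤ Real.log (B + 3) :=
      Real.log_le_log (by positivity) (by linarith)
    have h4 : 0 ≤ Real.log ((B : ℝ) + 1) := by
      apply Real.log_nonneg
      have : (0 : ℝ) ≤ B := Nat.cast_nonneg B
      linarith
    have h5 : (j : ℝ) * Real.log ((B : ℝ) + 1) ≤ S * Real.log (B + 3) := by gcongr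
    have h6 : 0 ≤ (S : ℝ) * Real.log (B + 3) := by
      have := Pool.Agent.U829.CF.log3 B
      positivity
    nlinarith
  · rw [hh]
    exact Pool.Agent.U829.CF.pos_le n hn (gen_irr hirr n)
  · rw [hh]
    simp [den]

end Pool.Agent.U829.AB
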