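import Pool.Agent.U829.AB.Main

set_option autoImplicit false

/-! # One code, existence of codes -/

namespace Pool.Agent.U829.AB

open Polynomial
open Pool.Agent.U829.CF (Joint ladder log3 size_S)

/-- **One code**, if the other number is algebraic. -/
theorem alone {u v : ℝ} (h : ∀ D, Joint u v D) (hu : IsAlgebraic ℤ u) {D : ℕ} {κ c : ℝ}
    {C : (ℕ → ℤ) → (ℕ → ℝ) → Prop} (hC : Pol v D κ C) (hS : Slow c C) :
    ∃ A : ℝ, 1 < A ∧ ∀ a hh, C a hh → Alone A a hh := by
  obtain ⟨A, hA, hcut⟩ := alone_pieces h hu hC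
  obtain ⟨r, hr⟩ : ∃ r : ℝ, r = max 1 c := ⟨_, rfl⟩
  have hr1 : 1 ≤ r := by rw [hr]; exact le_max_left _ _
  have hrc : c ≤ r := by rw [hr]; exact le_max_right _ _
  have hS1 : Slow r C := hS.mono hrc fun a hh hc => (hC a hh hc).1
  obtain ⟨w, hw⟩ : ∃ w : ℝ, w = 2 + 2 * (r * r * r) := ⟨_, rfl⟩
  obtain ⟨M, hM⟩ : ∃ M : ℝ, M = w * A ^ 2 := ⟨_, rfl⟩
  have hA2 : 1 ≤ A ^ 2 := one_le_pow₀ hA.le
  have hrr : r ≤ r * r := by nlinarith
  have hrrr : r ≤ r * r * r := by nlinarith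
  have hw1 : r ≤ w := by linarith
  have hw2 : 1 ≤ w := by linarith
  have hMA : r * A ^ 2 ≤ M := by rw [hM]; gcongr
  have hAA : A ≤ A ^ 2 := by nlinarith
  have hAM : A ≤ M := by
    have : 1 * A ^ 2 ≤ w * A ^ 2 := by gcongr
    linarith
  have hM1 : 1 < M := by linarith
  refine ⟨M, hM1, ?_⟩
  intro a hh hcode
  have hpos := (hC a hh hcode).1
  refine ⟨?_, ?_⟩
  · intro R m p n hR hm h1
    refine (hcut a hh hcode R m p n hR hm h1).trans ?_
    have h3 := hpos m
    gcongr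
  · intro S B δ g s hg
    have hSB := (size_S s B).1
    have key : ∀ m n : ℕ, 1 ≤ m → m ≤ n →
        hh n ≤ (S * Real.log ((B : ℝ) + 3) + hh m) * r *
          (A ^ 2) ^ ((wrong δ g s a m n).ncard + 1) := by
      intro m n hm hmn
      obtain ⟨p, hp, hc⟩ := cut_of_wrong δ g s a hh _ (grow_of hS1 hcode B δ g s hg) m hm n hmn
      have h1 := hcut a hh hcode _ m p n (by nlinarith) hm hc
      refine h1.trans ?_
      have h3 := hpos m
      rw [← pow_mul]
      have h4 : A ^ (p + 1) ≤ A ^ (2 * ((wrong δ g s a m n).ncard + 1)) :=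
        pow_le_pow_right₀ hA.le (by omega)
      have h5 : S * Real.log ((B : ℝ) + 3) * r + hh m ≤
          (S * Real.log ((B : ℝ) + 3) + hh m) * r := by nlinarith
      gcongr
    refine ⟨fun m n hm hmn => (key m n hm hmn).trans ?_, fun n => ?_⟩
    · obtain ⟨e, he⟩ : ∃ e, e = (wrong δ g s a m n).ncard := ⟨_, rfl⟩
      rw [← he]
      have h3 := hpos m
      have h4 : r * (A ^ 2) ^ (e + 1) ≤ M ^ (e + 1) := by
        calc r * (A ^ 2) ^ (e + 1) ≤ r ^ (e + 1) * (A ^ 2) ^ (e + 1) := by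
              have : r ≤ r ^ (e + 1) := le_self_pow₀ hr1 (by omega)
              gcongr
          _ = (r * A ^ 2) ^ (e + 1) := by rw [mul_pow]
          _ ≤ M ^ (e + 1) := by gcongr
      rw [mul_assoc]
      gcongr
    · rcases Nat.eq_zero_or_pos n with hn | hn
      · subst hn
        push_cast
        positivity
      · have h3 := key 1 n le_rfl hn
        obtain ⟨e, he⟩ : ∃ e, e = (wrong δ g s a 1 n).ncard := ⟨_, rfl⟩
        rw [← he] at h3 ⊢
        obtain ⟨Z, hZ⟩ : ∃ Z : ℝ, Z = S * Real.log ((B : ℝ) + 3) := ⟨_, rfl⟩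
        rw [← hZ] at h3 hSB ⊢
        have h1 : hh 1 ≤ r := (hS1 a hh hcode).2.2
        have h1' := hpos 1
        have g3 := (hS1 a hh hcode).2.1 n hn
        have hpw : 1 ≤ (A ^ 2) ^ (e + 1) := one_le_pow₀ hA2
        have g4 : hh n ≤ Z * (2 * r) * r * (A ^ 2) ^ (e + 1) := by
          refine h3.trans ?_
          have : Z + hh 1 ≤ Z * (2 * r) := by nlinarith
          gcongr
        have g5 : (n : ℝ) ≤ Z * (w * (A ^ 2) ^ (e + 1)) := by
          have h7 : r * hh n ≤ r * (Z * (2 * r) * r * (A ^ 2) ^ (e + 1)) := by gcongr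
          have h8 : (2 : ℝ) ≤ 2 * (Z * (A ^ 2) ^ (e + 1)) := by nlinarith
          rw [hw]
          linarith
        have g6 : w * (A ^ 2) ^ (e + 1) ≤ M ^ (e + 1) := by
          calc w * (A ^ 2) ^ (e + 1) ≤ w ^ (e + 1) * (A ^ 2) ^ (e + 1) := by
                have : w ≤ w ^ (e + 1) := le_self_pow₀ hw2 (by omega)
                gcongr
            _ = M ^ (e + 1) := by rw [← mul_pow, hM]
        exact g5.trans (mul_le_mul_of_nonneg_left g6 (by linarith))

lemma Apart.mono {A A' : ℝ} {a a' : ℕ → ℤ} {h h' : ℕ → ℝ} (hA : 0 ≤ A) (hAA : A ≤ A')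
    (h0 : ∀ n, 0 ≤ h n) (hap : Apart A a h a' h') : Apart A' a h a' h' := by
  obtain ⟨h1, h2⟩ := hap
  refine ⟨fun R m p n m' p' n' hR hm hm' hc hc' => (h1 R m p n m' p' n' hR hm hm' hc hc').trans ?_, ?_⟩
  · have h3 := (h0 m).trans (le_max_left (h m) (h' m'))
    gcongr
  · intro S B δ δ' g g' s s' hg hg'
    obtain ⟨h3, h4⟩ := h2 S B δ δ' g g' s s' hg hg'
    have h5 := log3 B
    refine ⟨fun m n m' n' hm hmn hm' hmn' => (h3 m n m' n' hm hmn hm' hmn').trans ?_,
      fun n => (h4 n).trans ?_⟩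
    · have h3 := (h0 m).trans (le_max_left (h m) (h' m'))
      gcongr
    · gcongr

lemma Alone.mono {A A' : ℝ} {a : ℕ → ℤ} {h : ℕ → ℝ} (hA : 0 ≤ A) (hAA : A ≤ A')
    (h0 : ∀ n, 0 ≤ h n) (hap : Alone A a h) : Alone A' a h := by
  obtain ⟨h1, h2⟩ := hap
  refine ⟨fun R m p n hR hm hc => (h1 R m p n hR hm hc).trans ?_, ?_⟩
  · have h3 := h0 m
    gcongr
  · intro S B δ g s hg
    obtain ⟨h3, h4⟩ := h2 S B δ g s hg
    have h5 := log3 B
    refine ⟨fun m n hm hmn => (h3 m n hm hmn).trans ?_, fun n => (h4 n).trans ?_⟩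
    · have h3 := h0 m
      gcongr
    · gcongr

/-- the remainders of the greedy expansion -/
noncomputable def rem (β y : ℝ) : ℕ → ℝ
  | 0 => y
  | n + 1 => Int.fract (β * rem β y n)

/-- the digits of the greedy expansion -/
noncomputable def dig (β y : ℝ) : ℕ → ℤ
  | 0 => 0
  | n + 1 => ⌊β * rem β y n⌋

lemma greedy (β y : ℝ) (hβ : 1 < β) (B : ℕ) (hB : β < B + 1) (hy0 : 0 ≤ y) (hy1 : y < 1) :
    (∀ i, |dig β y i| ≤ B) ∧ HasSum (fun i => (dig β y i : ℝ) * β⁻¹ ^ i) y := by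
  have hβ0 : 0 < β := by linarith
  have hrem : ∀ n, 0 ≤ rem β y n ∧ rem β y n < 1 := by
    intro n
    cases n with
    | zero => exact ⟨hy0, hy1⟩
    | succ n => exact ⟨Int.fract_nonneg _, Int.fract_lt_one _⟩
  have hdig : ∀ i, |dig β y i| ≤ B := by
    intro i
    cases i with
    | zero => simp [dig]
    | succ n =>
      obtain ⟨h1, h2⟩ := hrem n
      have h3 : 0 ≤ β * rem β y n := by positivity
      have h4 : 0 ≤ ⌊β * rem β y n⌋ := Int.floor_nonneg.2 h3
      change |⌊β * rem β y n⌋| ≤ B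
      rw [abs_of_nonneg h4]
      have h5 : ⌊β * rem β y n⌋ < (B : ℤ) + 1 := by
        rw [Int.floor_lt]
        push_cast
        nlinarith
      omega
  refine ⟨hdig, ?_⟩
  have hinv0 : 0 < β⁻¹ := by positivity
  have hinv1 : β⁻¹ < 1 := inv_lt_one_of_one_lt₀ hβ
  have hsum : Summable (fun i => (dig β y i : ℝ) * β⁻¹ ^ i) := by
    have hg : Summable (fun i : ℕ => (B : ℝ) * β⁻¹ ^ i) :=
      (summable_geometric_of_lt_one hinv0.le hinv1).mul_left _
    refine Summable.of_norm_bounded hg fun i => ?_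
    rw [norm_mul, Real.norm_eq_abs, Real.norm_eq_abs, abs_of_nonneg (pow_nonneg hinv0.le i)]
    have : |(dig β y i : ℝ)| ≤ B := by exact_mod_cast hdig i
    gcongr
  have hpart : ∀ n, ∑ i ∈ Finset.range (n + 1), (dig β y i : ℝ) * β⁻¹ ^ i = y - rem β y n * β⁻¹ ^ n := by
    intro n
    induction n with
    | zero => simp [dig, rem]
    | succ n ih =>
      rw [Finset.sum_range_succ, ih]
      have e : (dig β y (n + 1) : ℝ) + rem β y (n + 1) = β * rem β y n := Int.floor_add_fract _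
      have e2 : β * β⁻¹ = 1 := mul_inv_cancel₀ hβ0.ne'
      have e3 : (dig β y (n + 1) : ℝ) = β * rem β y n - rem β y (n + 1) := by linarith
      rw [e3, pow_succ]
      have : (β * rem β y n - rem β y (n + 1)) * (β⁻¹ ^ n * β⁻¹) =
          (β * β⁻¹) * (rem β y n * β⁻¹ ^ n) - rem β y (n + 1) * (β⁻¹ ^ n * β⁻¹) := by ring
      rw [this, e2]
      ring
  rw [hsum.hasSum_iff_tendsto_nat]
  refine (Filter.tendsto_add_atTop_iff_nat 1).1 ?_
  simp only [hpart]
  have hz : Filter.Tendsto (fun n => rem β y n * β⁻¹ ^ n) Filter.atTop (nhds 0) := by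
    refine squeeze_zero (fun n => mul_nonneg (hrem n).1 (pow_nonneg hinv0.le n)) (fun n => ?_)
      (tendsto_pow_atTop_nhds_zero_of_lt_one hinv0.le hinv1)
    have := pow_nonneg hinv0.le n
    nlinarith [(hrem n).2]
  simpa using hz.const_sub y

/-- every number has digits in the base `β` -/
lemma exists_code (F : Finset ℝ) (B t : ℕ) (β : ℝ) (hF : β ∈ F) (hβ : 1 < β) (hB : β < B + 1)
    (x : ℝ) (hx : |x| < β ^ t) : ∃ a h, DigitCode F B t x a h := by
  have hβ0 : 0 < β := by linarith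
  have hpow : 0 < β ^ t := by positivity
  have hy0 : 0 ≤ |x| * β⁻¹ ^ t := by positivity
  have hy1 : |x| * β⁻¹ ^ t < 1 := by
    rw [inv_pow, ← div_eq_mul_inv, div_lt_one hpow]
    exact hx
  obtain ⟨h1, h2⟩ := greedy β _ hβ B hB hy0 hy1
  rcases le_total 0 x with hx0 | hx0
  · rw [abs_of_nonneg hx0] at h1 h2
    exact ⟨_, _, β, hF, h1, h2, fun n => rfl⟩
  · refine ⟨fun i => - dig β (|x| * β⁻¹ ^ t) i, _, β, hF, fun i => by rw [abs_neg]; exact h1 i, ?_,
      fun n => rfl⟩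
    have h3 := h2.neg
    rw [abs_of_nonpos hx0] at h3 ⊢
    have e : -(-x * β⁻¹ ^ t) = x * β⁻¹ ^ t := by ring
    rw [e] at h3
    refine h3.congr_fun ?_ |> fun h => h
    intro i
    push_cast
    ring

end Pool.Agent.U829.AB
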