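import Pool.Agent.U829.AB.Code

set_option autoImplicit false

/-! # Two codes with few pieces -/

namespace Pool.Agent.U829.AB

open Polynomial
open Pool.Agent.U829.CF (Joint ladder log3 size_S)

lemma wrong_finite {S : ℕ} (δ : Fin S → ℤ → Fin S) (g : Fin S → ℤ) (s : Fin S) (a : ℕ → ℤ) (m n : ℕ) :
    (wrong δ g s a m n).Finite :=
  (Set.finite_Iio n).subset fun _ hi => hi.2.1

lemma stretch {S : ℕ} (δ : Fin S → ℤ → Fin S) (g : Fin S → ℤ) (s : Fin S) (a : ℕ → ℤ) (h : ℕ → ℝ)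
    (R : ℝ) (m n : ℕ) (hm : 1 ≤ m) (hmn : m < n)
    (hgrow : ∀ j : ℕ, j ≤ S → m + j ≤ n → h (m + j) ≤ h m + R)
    (hok : ∀ i, m ≤ i → i < n → a i = g (state δ s a (i - 1))) : Piece a h R m n := by
  refine ⟨hmn, Or.inr ?_⟩
  obtain ⟨j₁, j₂, hj, hjeq⟩ : ∃ j₁ j₂ : Fin (S + 1), j₁ < j₂ ∧
      state δ s a (m - 1 + j₁) = state δ s a (m - 1 + j₂) := by
    obtain ⟨c, b, hab, he⟩ := Fintype.exists_ne_map_eq_of_card_lt
      (fun j : Fin (S + 1) => state δ s a (m - 1 + j)) (by simp)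
    rcases lt_or_gt_of_ne hab with h | h
    · exact ⟨c, b, h, he⟩
    · exact ⟨b, c, h, he.symm⟩
  have hj' : (j₁ : ℕ) < j₂ := hj
  have hj2 : (j₂ : ℕ) ≤ S := Nat.lt_succ_iff.1 j₂.2
  by_cases hcase : m + j₂ ≤ n
  · obtain ⟨k, hk⟩ : ∃ k : ℕ, (j₂ : ℕ) = j₁ + k := ⟨j₂ - j₁, by omega⟩
    have hstate : ∀ i, m - 1 + j₁ ≤ i → i + k + 1 ≤ n → state δ s a (i + k) = state δ s a i := by
      intro i hi
      induction i, hi using Nat.le_induction with
      | base =>
        intro _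
        have e : m - 1 + (j₁ : ℕ) + k = m - 1 + j₂ := by omega
        rw [e, hjeq]
      | succ i hi ih =>
        intro h1
        have h2 := ih (by omega)
        have e1 : i + 1 + k = (i + k) + 1 := by ring
        rw [e1]
        change δ (state δ s a (i + k)) (a (i + k + 1)) = δ (state δ s a i) (a (i + 1))
        have h3 := hok (i + k + 1) (by omega) (by omega)
        have h4 := hok (i + 1) (by omega) (by omega)
        rw [Nat.add_sub_cancel] at h3 h4
        rw [h3, h4, h2]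
    refine ⟨m + j₁, k, by omega, by omega, by omega, ?_, ?_⟩
    · have := hgrow j₂ hj2 hcase
      rwa [hk, ← add_assoc] at this
    · intro i hi hin
      have h3 := hok (i + k) (by omega) (by omega)
      have h4 := hok i (by omega) (by omega)
      rw [h3, h4]
      have e : i + k - 1 = (i - 1) + k := by omega
      rw [e, hstate (i - 1) (by omega) (by omega)]
  · refine ⟨n - 1, 1, by omega, le_rfl, by omega, ?_, ?_⟩
    · have e : n - 1 + 1 = m + (n - m) := by omega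
      rw [e]
      exact hgrow (n - m) (by omega) (by omega)
    · intro i h1 h2
      omega

lemma Cut.append {a : ℕ → ℤ} {h : ℕ → ℝ} {R : ℝ} {m p l n : ℕ} (hc : Cut a h R m p l)
    (h' : Piece a h R l n) : Cut a h R m (p + 1) n := by
  obtain ⟨c, h0, hp, hc⟩ := hc
  refine ⟨fun j => if j ≤ p then c j else n, by simp [h0], by simp, ?_⟩
  intro j hj
  simp only [show j ≤ p by omega, if_true]
  by_cases hjp : j = p
  · subst hjp
    simp only [show ¬ (j + 1 ≤ j) by omega, if_false]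
    rw [hp]
    exact h'
  · simp only [show j + 1 ≤ p by omega, if_true]
    exact hc j (by omega)

lemma cut_of_wrong {S : ℕ} (δ : Fin S → ℤ → Fin S) (g : Fin S → ℤ) (s : Fin S) (a : ℕ → ℤ)
    (h : ℕ → ℝ) (R : ℝ) (hgrow : ∀ l j : ℕ, 1 ≤ l → j ≤ S →
      (∀ i, l ≤ i → i < l + j → a i = g (state δ s a (i - 1))) → h (l + j) ≤ h l + R)
    (m : ℕ) (hm : 1 ≤ m) (n : ℕ) (hmn : m ≤ n) :
    ∃ p, p ≤ 2 * (wrong δ g s a m n).ncard + 1 ∧ Cut a h R m p n := by
  have hst : ∀ l n, m ≤ l → l < n → (∀ i, l ≤ i → i < n → a i = g (state δ s a (i - 1))) →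
      Piece a h R l n := fun l n h1 h2 h3 =>
    stretch δ g s a h R l n (by omega) h2 (fun j hj hjn => hgrow l j (by omega) hj
      fun i h4 h5 => h3 i h4 (by omega)) h3
  have key : ∀ n, m ≤ n → ∃ l p, m ≤ l ∧ l ≤ n ∧ p ≤ 2 * (wrong δ g s a m n).ncard ∧
      Cut a h R m p l ∧ ∀ i, l ≤ i → i < n → a i = g (state δ s a (i - 1)) := by
    intro n hmn
    induction n, hmn using Nat.le_induction with
    | base =>
      exact ⟨m, 0, le_rfl, le_rfl, Nat.zero_le _, ⟨fun _ => m, rfl, rfl, by simp⟩,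
        fun i h1 h2 => by omega⟩
    | succ n hmn ih =>
      obtain ⟨l, p, h1, h2, h3, h4, h5⟩ := ih
      by_cases hw : a n = g (state δ s a (n - 1))
      · refine ⟨l, p, h1, by omega, h3.trans ?_, h4, ?_⟩
        · have : (wrong δ g s a m n).ncard ≤ (wrong δ g s a m (n + 1)).ncard :=
            Set.ncard_le_ncard (fun i hi => ⟨hi.1, by have := hi.2.1; omega, hi.2.2⟩)
              (wrong_finite δ g s a m (n + 1))
          omega
        · intro i h6 h7
          by_cases h8 : i < n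
          · exact h5 i h6 h8
          · have : i = n := by omega
            subst this
            exact hw
      · have hcard : (wrong δ g s a m (n + 1)).ncard = (wrong δ g s a m n).ncard + 1 := by
          have e : wrong δ g s a m (n + 1) = insert n (wrong δ g s a m n) := by
            ext i
            simp only [wrong, Set.mem_insert_iff, Set.mem_ofPred_eq]
            constructor
            · rintro ⟨g1, g2, g3⟩
              by_cases g4 : i = n
              · exact Or.inl g4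
              · exact Or.inr ⟨g1, by omega, g3⟩
            · rintro (rfl | ⟨g1, g2, g3⟩)
              · exact ⟨hmn, by omega, hw⟩
              · exact ⟨g1, by omega, g3⟩
          rw [e, Set.ncard_insert_of_notMem (fun h => by have := h.2.1; omega)
            (wrong_finite δ g s a m n)]
        have hsingle : Piece a h R n (n + 1) := ⟨by omega, Or.inl rfl⟩
        rcases Nat.eq_or_lt_of_le h2 with h6 | h6
        · subst h6
          exact ⟨l + 1, p + 1, by omega, le_rfl, by omega, h4.append hsingle,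
            fun i g1 g2 => by omega⟩
        · exact ⟨n + 1, p + 2, by omega, le_rfl, by omega, (h4.append (hst l n h1 h6 h5)).append hsingle,
            fun i g1 g2 => by omega⟩
  obtain ⟨l, p, h1, h2, h3, h4, h5⟩ := key n hmn
  rcases Nat.eq_or_lt_of_le h2 with h6 | h6
  · subst h6
    exact ⟨p, by omega, h4⟩
  · exact ⟨p + 1, by omega, h4.append (hst l n h1 h6 h5)⟩

/-- small values of polynomials at both numbers, at the same height -/
lemma joint_exp {u v : ℝ} {D : ℕ} (h : Joint u v D) (κ : ℝ) (hκ : 0 ≤ κ) :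
    ∃ a : ℝ, 1 ≤ a ∧ ∀ P Q : ℤ[X], P ≠ 0 → Q ≠ 0 → P.natDegree ≤ D → Q.natDegree ≤ D →
      ∀ Y Z : ℝ, 1 ≤ Y → (∀ k, |((P.coeff k : ℤ) : ℝ)| ≤ Real.exp (κ * Y)) →
      (∀ k, |((Q.coeff k : ℤ) : ℝ)| ≤ Real.exp (κ * Y)) →
      |aeval u P| ≤ Real.exp (κ * Y - Z) → |aeval v Q| ≤ Real.exp (κ * Y - Z) → Z ≤ a * Y := by
  obtain ⟨κ₁, C, hκ₁, hC, hj⟩ := h
  refine ⟨κ + κ * κ₁ + |Real.log C| + 1, ?_, ?_⟩
  · have := abs_nonneg (Real.log C)
    have : 0 ≤ κ * κ₁ := by positivity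
    linarith
  intro P Q hP hQ hPD hQD Y Z hY hPH hQH hPu hQv
  have h1 := hj P Q hP hQ hPD hQD _ hPH hQH
  have h2 : C * (Real.exp (κ * Y)) ^ (-κ₁) ≤ Real.exp (κ * Y - Z) := h1.trans (max_le hPu hQv)
  have h3 := Real.log_le_log (by positivity) h2
  rw [Real.log_mul hC.ne' (by positivity), Real.log_rpow (Real.exp_pos _), Real.log_exp,
    Real.log_exp] at h3
  have h5 := neg_abs_le (Real.log C)
  have h6 : |Real.log C| ≤ |Real.log C| * Y := by
    have := abs_nonneg (Real.log C)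
    nlinarith
  nlinarith

lemma cut_mono {a : ℕ → ℤ} {h : ℕ → ℝ} {R : ℝ} {m p : ℕ} (c : ℕ → ℕ) (h0 : c 0 = m)
    (hc : ∀ j < p, Piece a h R (c j) (c (j + 1))) (j : ℕ) (hj : j ≤ p) : m ≤ c j := by
  induction j with
  | zero => rw [h0]
  | succ j ih => exact (ih (by omega)).trans (hc j (by omega)).1.le

/-- pieces -/
theorem apart_pieces {u v : ℝ} {D : ℕ} (h : Joint u v D) {κ : ℝ} (hκ : 0 ≤ κ)
    {C C' : (ℕ → ℤ) → (ℕ → ℝ) → Prop} (hC : Pol u D κ C) (hC' : Pol v D κ C') : ∃ A : ℝ, 1 < A ∧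
    ∀ a hh a' hh', C a hh → C' a' hh' → ∀ (R : ℝ) (m p n m' p' n' : ℕ), 1 ≤ R → 1 ≤ m → 1 ≤ m' →
      Cut a hh R m p n → Cut a' hh' R m' p' n' →
      min (hh n) (hh' n') ≤ (R + max (hh m) (hh' m')) * A ^ (p + p') := by
  obtain ⟨b, hb, hj⟩ := joint_exp h κ hκ
  refine ⟨b + 1, by linarith, ?_⟩
  intro a hh a' hh' hcode hcode' R m p n m' p' n' hR hm hm' ⟨c, hc0, hcp, hc⟩ ⟨c', hc0', hcp', hc'⟩
  obtain ⟨hpos, hpol⟩ := hC a hh hcode
  obtain ⟨hpos', hpol'⟩ := hC' a' hh' hcode'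
  have h1 := ladder (fun j => hh (c j)) (fun j => hh' (c' j)) b R (max (hh m) (hh' m')) hb (by linarith)
    ((hpos m).trans (le_max_left _ _)) p p'
    (by simp only [hc0]; exact le_max_left _ _) (by simp only [hc0']; exact le_max_right _ _) (by
      intro j hj1 i hi1
      obtain ⟨P, g1, g2, g3, g4⟩ := hpol R _ _ hR (hm.trans (cut_mono c hc0 hc j hj1.le)) (hc j hj1)
      obtain ⟨Q, f1, f2, f3, f4⟩ := hpol' R _ _ hR (hm'.trans (cut_mono c' hc0' hc' i hi1.le)) (hc' i hi1)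
      have e1 : κ * (R + hh (c j)) ≤ κ * (R + max (hh (c j)) (hh' (c' i))) := by
        apply mul_le_mul_of_nonneg_left _ hκ
        have := le_max_left (hh (c j)) (hh' (c' i))
        linarith
      have e2 : κ * (R + hh' (c' i)) ≤ κ * (R + max (hh (c j)) (hh' (c' i))) := by
        apply mul_le_mul_of_nonneg_left _ hκ
        have := le_max_right (hh (c j)) (hh' (c' i))
        linarith
      have e3 := min_le_left (hh (c (j + 1))) (hh' (c' (i + 1)))
      have e4 := min_le_right (hh (c (j + 1))) (hh' (c' (i + 1)))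
      have e5 := (hpos (c j)).trans (le_max_left (hh (c j)) (hh' (c' i)))
      exact hj P Q g1 f1 g2 f2 (R + max (hh (c j)) (hh' (c' i))) _ (by linarith)
        (fun k => (g3 k).trans (Real.exp_le_exp.2 e1)) (fun k => (f3 k).trans (Real.exp_le_exp.2 e2))
        (g4.trans (Real.exp_le_exp.2 (by linarith))) (f4.trans (Real.exp_le_exp.2 (by linarith))))
  simp only [hcp, hcp'] at h1
  exact h1

lemma coeff_bound (P : ℤ[X]) : ∃ L : ℝ, 0 ≤ L ∧ ∀ k, |((P.coeff k : ℤ) : ℝ)| ≤ Real.exp L := by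
  refine ⟨∑ k ∈ Finset.range (P.natDegree + 1), |((P.coeff k : ℤ) : ℝ)|,
    Finset.sum_nonneg fun _ _ => abs_nonneg _, fun k => ?_⟩
  have h1 : |((P.coeff k : ℤ) : ℝ)| ≤ ∑ k ∈ Finset.range (P.natDegree + 1), |((P.coeff k : ℤ) : ℝ)| := by
    by_cases hk : k ≤ P.natDegree
    · exact Finset.single_le_sum (f := fun k => |((P.coeff k : ℤ) : ℝ)|) (fun _ _ => abs_nonneg _)
        (Finset.mem_range.2 (by omega))
    · rw [coeff_eq_zero_of_natDegree_lt (by omega)]
      simp only [Int.cast_zero, abs_zero]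
      exact Finset.sum_nonneg fun _ _ => abs_nonneg _
  have h2 := Real.add_one_le_exp (∑ k ∈ Finset.range (P.natDegree + 1), |((P.coeff k : ℤ) : ℝ)|)
  linarith

/-- one code, if the other number is algebraic -/
theorem alone_pieces {u v : ℝ} (h : ∀ D, Joint u v D) (hu : IsAlgebraic ℤ u) {D : ℕ} {κ : ℝ}
    {C : (ℕ → ℤ) → (ℕ → ℝ) → Prop} (hC : Pol v D κ C) : ∃ A : ℝ, 1 < A ∧
    ∀ a hh, C a hh → ∀ (R : ℝ) (m p n : ℕ), 1 ≤ R → 1 ≤ m → Cut a hh R m p n →
      hh n ≤ (R + hh m) * A ^ (p + 1) := by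
  obtain ⟨P, hP, hPu⟩ := hu
  obtain ⟨L, hL, hPL⟩ := coeff_bound P
  obtain ⟨D', hD'⟩ : ∃ D' : ℕ, D' = max D P.natDegree := ⟨_, rfl⟩
  obtain ⟨κ', hκ'⟩ : ∃ κ' : ℝ, κ' = max κ L := ⟨_, rfl⟩
  have hκ0 : 0 ≤ κ' := by rw [hκ']; exact hL.trans (le_max_right _ _)
  have hC' : Pol v D' κ' C := hC.mono (by rw [hD']; exact le_max_left _ _)
    (by rw [hκ']; exact le_max_left _ _)
  obtain ⟨b, hb, hj⟩ := joint_exp (h D') κ' hκ0
  refine ⟨b + 1, by linarith, ?_⟩
  intro a hh hcode R m p n hR hm ⟨c, hc0, hcp, hc⟩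
  obtain ⟨hpos, hpol⟩ := hC' a hh hcode
  have h1 := ladder (fun j => if j = 0 then 0 else hh n) (fun j => hh (c j)) b R (hh m) hb (by linarith)
    (hpos m) 1 p (by simpa using hpos m) (by simp only [hc0]; exact le_rfl) (by
      intro j hj1 i hi1
      have hj0 : j = 0 := by omega
      subst hj0
      simp only [if_true, zero_add, one_ne_zero, if_false]
      obtain ⟨Q, f1, f2, f3, f4⟩ := hpol R _ _ hR (hm.trans (cut_mono c hc0 hc i hi1.le)) (hc i hi1)
      rw [max_eq_right (hpos _)]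
      refine (min_le_right _ _).trans ?_
      have e0 := hpos (c i)
      refine hj P Q hP f1 (by rw [hD']; exact le_max_right _ _) f2 (R + hh (c i)) _ (by linarith) ?_ f3
        ?_ f4
      · intro k
        refine (hPL k).trans (Real.exp_le_exp.2 ?_)
        have h5 : L ≤ κ' := by rw [hκ']; exact le_max_right _ _
        nlinarith
      · rw [hPu, abs_zero]
        positivity)
  simp only [one_ne_zero, if_false, hcp] at h1
  rw [min_self] at h1
  refine h1.trans (le_of_eq ?_)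
  rw [add_comm 1 p]

/-- the size of the pieces given by an automaton -/
lemma grow_of {S : ℕ} {c : ℝ} {C : (ℕ → ℤ) → (ℕ → ℝ) → Prop} (hC : Slow c C) {a : ℕ → ℤ} {h : ℕ → ℝ}
    (hcode : C a h) (B : ℕ) (δ : Fin S → ℤ → Fin S) (g : Fin S → ℤ) (s : Fin S) (hg : ∀ t, g t ≤ B) :
    ∀ l j : ℕ, 1 ≤ l → j ≤ S → (∀ i, l ≤ i → i < l + j → a i = g (state δ s a (i - 1))) →
      h (l + j) ≤ h l + S * Real.log (B + 3) * c := fun l j hl hj hok =>
  (hC a h hcode).1 B S l j hl hj fun i h1 h2 => by rw [hok i h1 h2]; exact hg _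

/-- **Two codes.** -/
theorem apart {u v : ℝ} (h : ∀ D, Joint u v D) {D D' : ℕ} {κ κ' c c' : ℝ}
    {C C' : (ℕ → ℤ) → (ℕ → ℝ) → Prop} (hC : Pol u D κ C) (hC' : Pol v D' κ' C') (hS : Slow c C)
    (hS' : Slow c' C') : ∃ A : ℝ, 1 < A ∧ ∀ a hh a' hh', C a hh → C' a' hh' → Apart A a hh a' hh' := by
  obtain ⟨E, hE⟩ : ∃ E : ℕ, E = max D D' := ⟨_, rfl⟩
  obtain ⟨μ, hμ⟩ : ∃ μ : ℝ, μ = max 0 (max κ κ') := ⟨_, rfl⟩
  have hμ0 : 0 ≤ μ := by rw [hμ]; exact le_max_left _ _
  have hC1 : Pol u E μ C := hC.mono (by rw [hE]; exact le_max_left _ _)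
    (by rw [hμ]; exact (le_max_left _ _).trans (le_max_right _ _))
  have hC2 : Pol v E μ C' := hC'.mono (by rw [hE]; exact le_max_right _ _)
    (by rw [hμ]; exact (le_max_right _ _).trans (le_max_right _ _))
  obtain ⟨A, hA, hcut⟩ := apart_pieces (h E) hμ0 hC1 hC2
  obtain ⟨r, hr⟩ : ∃ r : ℝ, r = max 1 (max c c') := ⟨_, rfl⟩
  have hr1 : 1 ≤ r := by rw [hr]; exact le_max_left _ _
  have hrc : c ≤ r := by rw [hr]; exact (le_max_left _ _).trans (le_max_right _ _)
  have hrc' : c' ≤ r := by rw [hr]; exact (le_max_right _ _).trans (le_max_right _ _)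
  have hS1 : Slow r C := hS.mono hrc fun a hh hc => (hC a hh hc).1
  have hS2 : Slow r C' := hS'.mono hrc' fun a hh hc => (hC' a hh hc).1
  obtain ⟨w, hw⟩ : ∃ w : ℝ, w = 2 + 2 * (r * r * r) := ⟨_, rfl⟩
  obtain ⟨M, hM⟩ : ∃ M : ℝ, M = w * A ^ 2 := ⟨_, rfl⟩
  have hA2 : 1 ≤ A ^ 2 := one_le_pow₀ hA.le
  have hrr : r ≤ r * r := by nlinarith
  have hrrr : r ≤ r * r * r := by nlinarith
  have hw1 : r ≤ w := by linarith
  have hw2 : 1 ≤ w := by linarith
  have hMA : r * A ^ 2 ≤ M := by rw [hM]; gcongr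
  have hAA : A ≤ A ^ 2 := by nlinarith
  have hAM : A ≤ M := by
    have : 1 * A ^ 2 ≤ w * A ^ 2 := by gcongr
    linarith
  have hM1 : 1 < M := by linarith
  refine ⟨M, hM1, ?_⟩
  intro a hh a' hh' hcode hcode'
  have hpos := (hC a hh hcode).1
  have hpos' := (hC' a' hh' hcode').1
  refine ⟨?_, ?_⟩
  · intro R m p n m' p' n' hR hm hm' h1 h2
    refine (hcut a hh a' hh' hcode hcode' R m p n m' p' n' hR hm hm' h1 h2).trans ?_
    have h3 := (hpos m).trans (le_max_left (hh m) (hh' m'))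
    gcongr
  · intro S B δ δ' g g' s s' hg hg'
    have hSB := (size_S s B).1
    have key : ∀ m n m' n' : ℕ, 1 ≤ m → m ≤ n → 1 ≤ m' → m' ≤ n' →
        min (hh n) (hh' n') ≤ (S * Real.log ((B : ℝ) + 3) + max (hh m) (hh' m')) * r *
          (A ^ 2) ^ ((wrong δ g s a m n).ncard + (wrong δ' g' s' a' m' n').ncard + 1) := by
      intro m n m' n' hm hmn hm' hmn'
      obtain ⟨p, hp, hc⟩ := cut_of_wrong δ g s a hh _ (grow_of hS1 hcode B δ g s hg) m hm n hmn
      obtain ⟨p', hp', hc'⟩ := cut_of_wrong δ' g' s' a' hh' _ (grow_of hS2 hcode' B δ' g' s' hg') m' hm'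
        n' hmn'
      have h1 := hcut a hh a' hh' hcode hcode' _ m p n m' p' n' (by nlinarith) hm hm' hc hc'
      refine h1.trans ?_
      have h3 := (hpos m).trans (le_max_left (hh m) (hh' m'))
      rw [← pow_mul]
      have h4 : A ^ (p + p') ≤
          A ^ (2 * ((wrong δ g s a m n).ncard + (wrong δ' g' s' a' m' n').ncard + 1)) :=
        pow_le_pow_right₀ hA.le (by omega)
      have h5 : S * Real.log ((B : ℝ) + 3) * r + max (hh m) (hh' m') ≤
          (S * Real.log ((B : ℝ) + 3) + max (hh m) (hh' m')) * r := by nlinarith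
      gcongr
    refine ⟨fun m n m' n' hm hmn hm' hmn' => (key m n m' n' hm hmn hm' hmn').trans ?_, fun n => ?_⟩
    · obtain ⟨e, he⟩ : ∃ e, e = (wrong δ g s a m n).ncard + (wrong δ' g' s' a' m' n').ncard := ⟨_, rfl⟩
      rw [← he]
      have h3 := (hpos m).trans (le_max_left (hh m) (hh' m'))
      have h4 : r * (A ^ 2) ^ (e + 1) ≤ M ^ (e + 1) := by
        calc r * (A ^ 2) ^ (e + 1) ≤ r ^ (e + 1) * (A ^ 2) ^ (e + 1) := by
              have : r ≤ r ^ (e + 1) := le_self_pow₀ hr1 (by omega)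
              gcongr
          _ = (r * A ^ 2) ^ (e + 1) := by rw [mul_pow]
          _ ≤ M ^ (e + 1) := by gcongr
      rw [mul_assoc]
      gcongr
    · rcases Nat.eq_zero_or_pos n with hn | hn
      · subst hn
        push_cast
        positivity
      · have h3 := key 1 n 1 n le_rfl hn le_rfl hn
        obtain ⟨e, he⟩ : ∃ e, e = (wrong δ g s a 1 n).ncard + (wrong δ' g' s' a' 1 n).ncard := ⟨_, rfl⟩
        rw [← he] at h3 ⊢
        obtain ⟨Z, hZ⟩ : ∃ Z : ℝ, Z = S * Real.log ((B : ℝ) + 3) := ⟨_, rfl⟩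
        rw [← hZ] at h3 hSB ⊢
        have h1 : max (hh 1) (hh' 1) ≤ r := max_le (hS1 a hh hcode).2.2 (hS2 a' hh' hcode').2.2
        have h1' := (hpos 1).trans (le_max_left (hh 1) (hh' 1))
        have g1 := (hS1 a hh hcode).2.1 n hn
        have g2 := (hS2 a' hh' hcode').2.1 n hn
        have g3 : (n : ℝ) ≤ 2 + r * min (hh n) (hh' n) := by
          rcases min_choice (hh n) (hh' n) with h6 | h6 <;> rw [h6] <;> assumption
        have hpw : 1 ≤ (A ^ 2) ^ (e + 1) := one_le_pow₀ hA2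
        have g4 : min (hh n) (hh' n) ≤ Z * (2 * r) * r * (A ^ 2) ^ (e + 1) := by
          refine h3.trans ?_
          have : Z + max (hh 1) (hh' 1) ≤ Z * (2 * r) := by nlinarith
          gcongr
        have g5 : (n : ℝ) ≤ Z * (w * (A ^ 2) ^ (e + 1)) := by
          have h7 : r * min (hh n) (hh' n) ≤ r * (Z * (2 * r) * r * (A ^ 2) ^ (e + 1)) := by gcongr
          have h8 : (2 : ℝ) ≤ 2 * (Z * (A ^ 2) ^ (e + 1)) := by nlinarith
          rw [hw]
          linarith
        have g6 : w * (A ^ 2) ^ (e + 1) ≤ M ^ (e + 1) := by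
          calc w * (A ^ 2) ^ (e + 1) ≤ w ^ (e + 1) * (A ^ 2) ^ (e + 1) := by
                have : w ≤ w ^ (e + 1) := le_self_pow₀ hw2 (by omega)
                gcongr
            _ = M ^ (e + 1) := by rw [← mul_pow, hM]
        exact g5.trans (mul_le_mul_of_nonneg_left g6 (by linarith))

end Pool.Agent.U829.AB
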