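import Mathlib
import Pool.Agent.R356.Len

set_option autoImplicit false

/-! # From linear forms over `ℤ[γ]` to integer polynomials -/

namespace Pool.Agent.U829.AB

open Polynomial Matrix Pool.Agent.R356

lemma isLen_real : IsLen (fun z : ℝ => |z|) where
  nonneg _ := abs_nonneg _
  zero := by simp
  one := by simp
  neg a := by simp
  add a b := abs_add_le a b
  mul a b := (abs_mul a b).le

lemma len_X_int : len (fun z : ℤ => |(z : ℝ)|) X = 1 := by
  rw [len_eq isLen_int X 2 (by rw [natDegree_X]; norm_num)]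
  simp [Finset.sum_range_succ, coeff_X]

/-- powers of an integer matrix -/
lemma pow_entry {D : ℕ} (M : Matrix (Fin D) (Fin D) ℤ) (m : ℝ) (hm : 1 ≤ m)
    (hM : ∀ i j, |(M i j : ℝ)| ≤ m) (n : ℕ) : ∀ i j, |((M ^ n) i j : ℝ)| ≤ (D * m) ^ n := by
  induction n with
  | zero =>
    intro i j
    rw [pow_zero, pow_zero, Matrix.one_apply]
    split <;> simp
  | succ n ih =>
    intro i j
    rw [pow_succ, Matrix.mul_apply]
    push_cast
    refine (Finset.abs_sum_le_sum_abs _ _).trans ?_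
    calc ∑ l, |((M ^ n) i l : ℝ) * (M l j : ℝ)| ≤ ∑ _l : Fin D, (D * m) ^ n * m := by
          refine Finset.sum_le_sum fun l _ => ?_
          rw [abs_mul]
          exact mul_le_mul (ih i l) (hM l j) (abs_nonneg _) (by positivity)
      _ = (D * m) ^ (n + 1) := by
          rw [Finset.sum_const, Finset.card_univ, Fintype.card_fin, nsmul_eq_mul]
          ring

/-- polynomials in an integer matrix -/
lemma aeval_entry {D : ℕ} (hD : 1 ≤ D) (M : Matrix (Fin D) (Fin D) ℤ) (m : ℝ) (hm : 1 ≤ m)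
    (hM : ∀ i j, |(M i j : ℝ)| ≤ m) (G : ℤ[X]) (N : ℕ) (hG : G.natDegree ≤ N) (L : ℝ) (hL : 0 ≤ L)
    (hGL : ∀ k, |(G.coeff k : ℝ)| ≤ L) (i j : Fin D) :
    |((aeval M G) i j : ℝ)| ≤ L * (2 * D * m) ^ N := by
  rw [aeval_eq_sum_range' (n := N + 1) (by omega)]
  have hD1 : (1 : ℝ) ≤ D := by exact_mod_cast hD
  have hDm : 1 ≤ (D : ℝ) * m := by nlinarith
  have e : ((∑ i ∈ Finset.range (N + 1), G.coeff i • M ^ i) i j : ℤ) =
      ∑ l ∈ Finset.range (N + 1), G.coeff l * (M ^ l) i j := by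
    rw [Matrix.sum_apply]
    rfl
  rw [e]
  push_cast
  refine (Finset.abs_sum_le_sum_abs _ _).trans ?_
  calc ∑ l ∈ Finset.range (N + 1), |(G.coeff l : ℝ) * ((M ^ l) i j : ℝ)|
      ≤ ∑ _l ∈ Finset.range (N + 1), L * (D * m) ^ N := by
        refine Finset.sum_le_sum fun l hl => ?_
        rw [abs_mul]
        refine mul_le_mul (hGL l) ((pow_entry M m hm hM l i j).trans ?_) (abs_nonneg _) hL
        exact pow_le_pow_right₀ hDm (by rw [Finset.mem_range] at hl; omega)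
    _ = (N + 1) * (L * (D * m) ^ N) := by
        rw [Finset.sum_const, Finset.card_range, nsmul_eq_mul]
        push_cast
        ring
    _ ≤ 2 ^ N * (L * (D * m) ^ N) := by
        have h1 : ((N : ℝ) + 1) ≤ 2 ^ N := by
          have : N + 1 ≤ 2 ^ N := Nat.lt_two_pow_self
          exact_mod_cast this
        have : 0 ≤ L * (D * m) ^ N := by positivity
        exact mul_le_mul_of_nonneg_right h1 this
    _ = _ := by
        rw [mul_assoc 2 (D : ℝ) m, mul_pow 2 ((D : ℝ) * m)]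
        ring

/-- **Linear forms over `ℤ[γ]`.** -/
theorem norm_poly (γ : ℝ) (hγ : IsIntegral ℤ γ) : ∃ (D : ℕ) (K : ℝ), 1 ≤ K ∧
    ∀ (G H : ℤ[X]) (N : ℕ) (L : ℝ), 1 ≤ L → G.natDegree ≤ N → H.natDegree ≤ N →
      (∀ k, |(G.coeff k : ℝ)| ≤ L) → (∀ k, |(H.coeff k : ℝ)| ≤ L) → aeval γ G ≠ 0 → ∀ x : ℝ,
      ∃ P : ℤ[X], P ≠ 0 ∧ P.natDegree ≤ D ∧ (∀ k, |(P.coeff k : ℝ)| ≤ (L * K ^ (N + 1)) ^ D) ∧
        |aeval x P| ≤ ((1 + |x|) * (L * K ^ (N + 1))) ^ D * |aeval γ G * x - aeval γ H| := by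
  classical
  obtain ⟨pb, hpb⟩ : ∃ pb : PowerBasis ℤ (Algebra.adjoin ℤ ({γ} : Set ℝ)), True :=
    ⟨Algebra.adjoin.powerBasis' hγ, trivial⟩
  obtain ⟨D, hD⟩ : ∃ D, D = pb.dim := ⟨_, rfl⟩
  have hDpos : 1 ≤ D := by rw [hD]; exact pb.dim_pos
  obtain ⟨b, hb⟩ : ∃ b : Module.Basis (Fin D) ℤ (Algebra.adjoin ℤ ({γ} : Set ℝ)),
      ∃ i₀ : Fin D, b i₀ = 1 := by
    subst hD
    refine ⟨pb.basis, ⟨0, hDpos⟩, ?_⟩
    rw [PowerBasis.coe_basis]
    simp
  obtain ⟨i₀, hi₀⟩ := hb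
  obtain ⟨γ', hγ'⟩ : ∃ γ' : Algebra.adjoin ℤ ({γ} : Set ℝ), (γ' : ℝ) = γ :=
    ⟨⟨γ, Algebra.subset_adjoin rfl⟩, rfl⟩
  obtain ⟨M, hM⟩ : ∃ M : Matrix (Fin D) (Fin D) ℤ, M = Algebra.leftMulMatrix b γ' := ⟨_, rfl⟩
  obtain ⟨m, hm⟩ : ∃ m : ℝ, m = 1 + ∑ i, ∑ j, |(M i j : ℝ)| := ⟨_, rfl⟩
  have hm1 : 1 ≤ m := by
    rw [hm]
    have : 0 ≤ ∑ i, ∑ j, |(M i j : ℝ)| := Finset.sum_nonneg fun _ _ => Finset.sum_nonneg fun _ _ => abs_nonneg _
    linarith
  have hMm : ∀ i j, |(M i j : ℝ)| ≤ m := by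
    intro i j
    rw [hm]
    have h1 : |(M i j : ℝ)| ≤ ∑ j, |(M i j : ℝ)| :=
      Finset.single_le_sum (f := fun j => |(M i j : ℝ)|) (fun _ _ => abs_nonneg _) (Finset.mem_univ j)
    have h2 : ∑ j, |(M i j : ℝ)| ≤ ∑ i, ∑ j, |(M i j : ℝ)| :=
      Finset.single_le_sum (f := fun i => ∑ j, |(M i j : ℝ)|)
        (fun _ _ => Finset.sum_nonneg fun _ _ => abs_nonneg _) (Finset.mem_univ i)
    linarith
  obtain ⟨W, hW⟩ : ∃ W : ℝ, W = 1 + ∑ i, |((b i : Algebra.adjoin ℤ ({γ} : Set ℝ)) : ℝ)| := ⟨_, rfl⟩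
  have hW1 : 1 ≤ W := by
    rw [hW]
    have : 0 ≤ ∑ i, |((b i : Algebra.adjoin ℤ ({γ} : Set ℝ)) : ℝ)| := Finset.sum_nonneg fun _ _ => abs_nonneg _
    linarith
  have hbW : ∀ i, |((b i : Algebra.adjoin ℤ ({γ} : Set ℝ)) : ℝ)| ≤ W := by
    intro i
    rw [hW]
    have := Finset.single_le_sum (f := fun i => |((b i : Algebra.adjoin ℤ ({γ} : Set ℝ)) : ℝ)|)
      (fun _ _ => abs_nonneg _) (Finset.mem_univ i)
    linarith
  have hD1 : (1 : ℝ) ≤ D := by exact_mod_cast hDpos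
  obtain ⟨K, hK⟩ : ∃ K : ℝ, K = 2 * D * m * W := ⟨_, rfl⟩
  have hDm : 1 ≤ 2 * (D : ℝ) * m := by nlinarith
  have hK1 : 1 ≤ K := by rw [hK]; nlinarith
  have hKm : 2 * (D : ℝ) * m ≤ K := by rw [hK]; nlinarith
  have hKD : 2 * (D : ℝ) * W ≤ K := by
    rw [hK]
    have : 0 ≤ 2 * (D : ℝ) * W := by positivity
    nlinarith
  refine ⟨D, K, hK1, ?_⟩
  intro G H N L hL hGN hHN hGL hHL hne x
  obtain ⟨g, hg⟩ : ∃ g : Algebra.adjoin ℤ ({γ} : Set ℝ), g = aeval γ' G := ⟨_, rfl⟩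
  obtain ⟨h, hh⟩ : ∃ h : Algebra.adjoin ℤ ({γ} : Set ℝ), h = aeval γ' H := ⟨_, rfl⟩
  have hval : ∀ F : ℤ[X], ((aeval γ' F : Algebra.adjoin ℤ ({γ} : Set ℝ)) : ℝ) = aeval γ F := by
    intro F
    have h1 := Polynomial.aeval_algebraMap_apply ℝ γ' F
    rw [show (algebraMap (Algebra.adjoin ℤ ({γ} : Set ℝ)) ℝ) γ' = γ from hγ'] at h1
    exact h1.symm
  have hgv : (g : ℝ) = aeval γ G := by rw [hg, hval]
  have hhv : (h : ℝ) = aeval γ H := by rw [hh, hval]
  have hg0 : g ≠ 0 := by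
    intro h0
    apply hne
    rw [← hgv, h0]
    rfl
  obtain ⟨Mg, hMg⟩ : ∃ Mg : Matrix (Fin D) (Fin D) ℤ, Mg = Algebra.leftMulMatrix b g := ⟨_, rfl⟩
  obtain ⟨Mh, hMh⟩ : ∃ Mh : Matrix (Fin D) (Fin D) ℤ, Mh = Algebra.leftMulMatrix b h := ⟨_, rfl⟩
  have hMg' : Mg = aeval M G := by
    rw [hMg, hM, hg, Polynomial.aeval_algHom_apply]
  have hMh' : Mh = aeval M H := by
    rw [hMh, hM, hh, Polynomial.aeval_algHom_apply]
  have hMgb : ∀ i j, |(Mg i j : ℝ)| ≤ L * (2 * D * m) ^ N := fun i j => by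
    rw [hMg']
    exact aeval_entry hDpos M m hm1 hMm G N hGN L (by linarith) hGL i j
  have hMhb : ∀ i j, |(Mh i j : ℝ)| ≤ L * (2 * D * m) ^ N := fun i j => by
    rw [hMh']
    exact aeval_entry hDpos M m hm1 hMm H N hHN L (by linarith) hHL i j
  have hdet : Mg.det ≠ 0 := by
    rw [hMg, ← Algebra.norm_eq_matrix_det b g]
    exact (Algebra.norm_ne_zero_iff_of_basis b).2 hg0
  obtain ⟨Z, hZ⟩ : ∃ Z : ℝ, Z = L * K ^ N := ⟨_, rfl⟩
  have hKN : 1 ≤ K ^ N := one_le_pow₀ hK1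
  have hZ1 : 1 ≤ Z := by rw [hZ]; nlinarith
  have hZb : L * (2 * D * m) ^ N ≤ Z := by
    rw [hZ]
    have h1 : (2 * (D : ℝ) * m) ^ N ≤ K ^ N := pow_le_pow_left₀ (by linarith) hKm N
    exact mul_le_mul_of_nonneg_left h1 (by linarith)
  have hLK : L * K ^ (N + 1) = Z * K := by rw [hZ]; ring
  have hfac : (D.factorial : ℝ) ≤ (D : ℝ) ^ D := by exact_mod_cast Nat.factorial_le_pow D
  obtain ⟨P, hP⟩ : ∃ P : ℤ[X], P = ((X : ℤ[X]) • Mg.map C + (-Mh).map C).det := ⟨_, rfl⟩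
  refine ⟨P, ?_, ?_, ?_, ?_⟩
  · intro h0
    have h1 := coeff_det_X_add_C_card Mg (-Mh)
    rw [← hP, h0, coeff_zero] at h1
    exact hdet h1.symm
  · rw [hP]
    exact (natDegree_det_X_add_C_le Mg (-Mh)).trans (by rw [Fintype.card_fin])
  · intro k
    have h1 := le_len isLen_int P k
    refine h1.trans ?_
    rw [hP]
    refine (isLen_int.poly.det D _ (2 * Z) ?_).trans ?_
    · intro i j
      have e : ((X : ℤ[X]) • Mg.map C + (-Mh).map C) i j = X * C (Mg i j) + C (-Mh i j) := by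
        simp [Matrix.add_apply, Matrix.smul_apply, Matrix.map_apply]
      rw [e]
      refine (isLen_int.poly.add _ _).trans ?_
      have h2 := isLen_int.poly.mul (X : ℤ[X]) (C (Mg i j))
      have h3 := len_C isLen_int (Mg i j)
      have h4 := len_C isLen_int (-Mh i j)
      have h5 := hMgb i j
      have h6 := hMhb i j
      rw [len_X_int, h3, one_mul] at h2
      rw [h4]
      have h7 : |((-Mh i j : ℤ) : ℝ)| = |(Mh i j : ℝ)| := by push_cast; rw [abs_neg]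
      rw [h7]
      linarith
    · rw [hLK]
      calc (D.factorial : ℝ) * (2 * Z) ^ D ≤ (D : ℝ) ^ D * (2 * Z) ^ D := by gcongr
        _ = (Z * (2 * D)) ^ D := by rw [← mul_pow]; ring
        _ ≤ (Z * K) ^ D := by
            have h2 : 2 * (D : ℝ) ≤ K := by nlinarith
            gcongr
  · -- the value
    have hcol : ∀ (a : Algebra.adjoin ℤ ({γ} : Set ℝ)) (j : Fin D),
        ∑ i, ((b i : Algebra.adjoin ℤ ({γ} : Set ℝ)) : ℝ) * ((Algebra.leftMulMatrix b a) i j : ℝ) =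
          (a : ℝ) * ((b j : Algebra.adjoin ℤ ({γ} : Set ℝ)) : ℝ) := by
      intro a j
      have h1 := b.sum_repr (a * b j)
      have h2 : ((∑ i, (b.repr (a * b j)) i • b i : Algebra.adjoin ℤ ({γ} : Set ℝ)) : ℝ) =
          ((a * b j : Algebra.adjoin ℤ ({γ} : Set ℝ)) : ℝ) := by rw [h1]
      rw [AddSubmonoidClass.coe_finsetSum] at h2
      rw [← show ((a * b j : Algebra.adjoin ℤ ({γ} : Set ℝ)) : ℝ) =
        (a : ℝ) * ((b j : Algebra.adjoin ℤ ({γ} : Set ℝ)) : ℝ) from rfl, ← h2]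
      refine Finset.sum_congr rfl fun i _ => ?_
      rw [Algebra.leftMulMatrix_eq_repr_mul]
      rw [show ((((b.repr (a * b j)) i) • b i : Algebra.adjoin ℤ ({γ} : Set ℝ)) : ℝ) =
        ((b.repr (a * b j)) i : ℝ) * ((b i : Algebra.adjoin ℤ ({γ} : Set ℝ)) : ℝ) by
          rw [zsmul_eq_mul]; push_cast; rfl]
      ring
    obtain ⟨w, hw⟩ : ∃ w : Fin D → ℝ, w = fun i => ((b i : Algebra.adjoin ℤ ({γ} : Set ℝ)) : ℝ) := ⟨_, rfl⟩
    obtain ⟨Nx, hNx⟩ : ∃ Nx : Matrix (Fin D) (Fin D) ℝ, Nx = fun i j => x * (Mg i j : ℝ) - (Mh i j : ℝ) :=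
      ⟨_, rfl⟩
    obtain ⟨E, hE⟩ : ∃ E : ℝ, E = aeval γ G * x - aeval γ H := ⟨_, rfl⟩
    have hPx : aeval x P = Nx.det := by
      rw [hP, AlgHom.map_det]
      congr 1
      ext i j
      rw [hNx]
      simp [Matrix.add_apply, Matrix.smul_apply, Matrix.map_apply]
      ring
    have hrow : ∑ k, w k • Nx k = E • w := by
      ext j
      rw [Finset.sum_apply]
      have h1 := hcol g j
      have h2 := hcol h j
      rw [← hMg, hgv] at h1
      rw [← hMh, hhv] at h2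
      have e : ∑ c, (w c • Nx c) j = x * (∑ i, w i * (Mg i j : ℝ)) - ∑ i, w i * (Mh i j : ℝ) := by
        rw [Finset.mul_sum, ← Finset.sum_sub_distrib]
        refine Finset.sum_congr rfl fun i _ => ?_
        rw [hNx]
        simp only [Pi.smul_apply, smul_eq_mul]
        ring
      rw [e]
      simp only [hw] at h1 h2 ⊢
      rw [h1, h2, hE]
      simp only [Pi.smul_apply, smul_eq_mul]
      ring
    have hw0 : w i₀ = 1 := by
      rw [hw]
      simp only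
      rw [hi₀]
      rfl
    have hdetN : Nx.det = E * (Nx.updateRow i₀ w).det := by
      have h1 := Matrix.det_updateRow_sum Nx i₀ w
      rw [hrow, Matrix.det_updateRow_smul, hw0, one_smul] at h1
      rw [← h1]
    rw [hPx, hdetN, abs_mul, ← hE, mul_comm]
    refine mul_le_mul_of_nonneg_right ?_ (abs_nonneg _)
    have hx0 := abs_nonneg x
    refine (isLen_real.det D _ ((1 + |x|) * (Z * W)) ?_).trans ?_
    · intro i j
      by_cases hi : i = i₀
      · subst hi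
        rw [Matrix.updateRow_self, hw]
        simp only
        refine (hbW j).trans ?_
        have h1 : W ≤ Z * W := by nlinarith
        have h2 : 0 ≤ Z * W := by positivity
        nlinarith
      · rw [Matrix.updateRow_ne hi, hNx]
        simp only
        have h1 := abs_sub (x * (Mg i j : ℝ)) (Mh i j : ℝ)
        rw [abs_mul] at h1
        have h2 := (hMgb i j).trans hZb
        have h3 := (hMhb i j).trans hZb
        have h4 : |x| * |(Mg i j : ℝ)| ≤ |x| * Z := mul_le_mul_of_nonneg_left h2 hx0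
        have h5 : (1 + |x|) * Z ≤ (1 + |x|) * (Z * W) := by
          have : Z ≤ Z * W := by nlinarith
          gcongr
        linarith
    · rw [hLK]
      calc (D.factorial : ℝ) * ((1 + |x|) * (Z * W)) ^ D ≤ (D : ℝ) ^ D * ((1 + |x|) * (Z * W)) ^ D := by
            gcongr
        _ = ((1 + |x|) * (Z * (D * W))) ^ D := by rw [← mul_pow]; ring
        _ ≤ ((1 + |x|) * (Z * K)) ^ D := by
            have h2 : (D : ℝ) * W ≤ K := by nlinarith
            gcongr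

end Pool.Agent.U829.AB
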